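import Pool.Agent.MP_5168f5_an.H95F.Defs

/-! Linearisation of a bilinear expression: the statements of the combinatorial steps. -/

namespace Pool.Agent.MP_5168f5_an.H95F

open H17S Finset

/-! ### Families -/

/-- A small difference set has small fibres over `ζ`. -/
def SFib : Prop := ∀ (G : Type) [AddCommGroup G] (Γ T : Finset G) (ζ : G →+ ℤ) (n K : ℕ),
  1 ≤ n → 2 ≤ K → T.card ≤ K * n → (∀ a ∈ Γ, ∀ b ∈ Γ, a - b ∈ T) →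
  n ≤ K * (Γ.image ζ).card → ∀ σ : ℝ, ∃ F : Finset G, F.card ≤ K ^ 15 ∧
    ∀ a ∈ Γ, ∀ b ∈ Γ, ∀ c ∈ Γ, ∀ e ∈ Γ,
      |(ζ (a + b - c - e) : ℝ) - σ| ≤ 3 → a + b - c - e ∈ F

def SBuild : Prop := ∀ (G E : Type) [AddCommGroup G] [NormedAddCommGroup E] [NormedSpace ℝ E]
  (X : Ctx G E), X.OK → ∀ (A : Type) [Fintype A] (c : A → ℝ) (N : A → Finset G),
  (∀ a, c a ∈ Set.Icc (0 : ℝ) 1) → (∀ a, N a ⊆ X.Γ) →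
  (∀ a, X.n ≤ X.K * ((N a).image X.ζ).card) →
  ∃ Z d s, X.Fam (3 * Fintype.card A) (Set.range c) Z d s ∧
    ∀ a, ∀ z ∈ Z, ∀ z' ∈ Z, ∃ x ∈ N a, ∃ x' ∈ N a, d (c a) z - d (c a) z' = x - x'

def SAdd : Prop := ∀ (G E : Type) [AddCommGroup G] [NormedAddCommGroup E] [NormedSpace ℝ E]
  (X : Ctx G E), X.OK → ∀ (a a' m : ℕ) (f f' : ℝ →₀ ℝ) (μ μ' : ℝ), X.Sm a f μ → X.Sm a' f' μ' →
  f.support.card ≤ m → X.Sm (a + a' + m + 1) (f + f') (μ + μ')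

def Base : Prop := ∀ (G E : Type) [AddCommGroup G] [NormedAddCommGroup E] [NormedSpace ℝ E]
  (X : Ctx G E), X.OK →
  (∀ (J : ℕ) (c l : Fin J → ℝ), (∀ i, c i ∈ Set.Icc (0 : ℝ) 1) →
    X.Sm (3 * J) (cmb c l) (2 * X.K * X.n * (J * ‖l‖))) ∧
  ∀ c c' : ℝ, 0 ≤ c → 0 ≤ c' → c + c' ≤ 1 →
    X.Sm 10 (Finsupp.single (c + c') 1 - Finsupp.single c 1 - Finsupp.single c' 1) 0

def SBase : Prop := SBuild → Base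

/-! ### Rank -/

/-- Approximately additive bounded functions on `[0, 1]` are approximately linear. -/
def SHU : Prop := ∀ (F : Type) [NormedAddCommGroup F] [NormedSpace ℝ F] (τ : ℝ → F) (B σ : ℝ),
  (∀ c ∈ Set.Icc (0 : ℝ) 1, ‖τ c‖ ≤ B) →
  (∀ c c' : ℝ, 0 ≤ c → 0 ≤ c' → c + c' ≤ 1 → ‖τ (c + c') - τ c - τ c'‖ ≤ σ) →
  ∀ c ∈ Set.Icc (0 : ℝ) 1, ‖τ c - c • τ 1‖ ≤ 3 * σ

/-- A graded notion of smallness of formal combinations of scalars. -/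
structure Grd (P : ℕ → (ℝ →₀ ℝ) → ℝ → Prop) (J₀ : ℕ) (x : ℝ) : Prop where
  mono : ∀ j j' f μ μ', P j f μ → j ≤ j' → μ ≤ μ' → P j' f μ'
  add : ∀ j f f' μ μ', P j f μ → P j f' μ' → P (j + 1) (f + f') (μ + μ')
  smul : ∀ j f μ (t : ℝ), P j f μ → P j (t • f) (|t| * μ)
  one : ∀ c ∈ Set.Icc (0 : ℝ) 1, ∀ t : ℝ, P 0 (Finsupp.single c t) |t|
  triv : ∀ J ≤ J₀, ∀ c l : Fin J → ℝ, (∀ i, c i ∈ Set.Icc (0 : ℝ) 1) → P 0 (cmb c l) (J * ‖l‖)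
  base : ∀ c c' : ℝ, 0 ≤ c → 0 ≤ c' → c + c' ≤ 1 →
    P 0 (Finsupp.single (c + c') 1 - Finsupp.single c 1 - Finsupp.single c' 1) 0
  dep : ∀ c : Fin J₀ → ℝ, (∀ i, c i ∈ Set.Icc (0 : ℝ) 1) →
    ∃ l : Fin J₀ → ℝ, ‖l‖ = 1 ∧ P 0 (cmb c l) (x ^ 3 ^ J₀)

def Rank : Prop := ∀ (P : ℕ → (ℝ →₀ ℝ) → ℝ → Prop) (J₀ : ℕ) (x : ℝ), Grd P J₀ x → 0 < x →
  x ≤ 1 / 2 → ∀ c ∈ Set.Icc (0 : ℝ) 1,
    P (2 * J₀) (Finsupp.single c 1 - Finsupp.single 1 c) ((18 * J₀ + 2) * x)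

def SRank : Prop := SHU → Rank

def Lin : Prop := ∀ (G E : Type) [AddCommGroup G] [NormedAddCommGroup E] [NormedSpace ℝ E]
  (X : Ctx G E), X.OK → ∀ (J a : ℕ) (x : ℝ), 3 * J ≤ a → 10 ≤ a → 0 < x → x ≤ 1 / 2 →
  (∀ c : Fin J → ℝ, (∀ i, c i ∈ Set.Icc (0 : ℝ) 1) →
    ∃ l : Fin J → ℝ, ‖l‖ = 1 ∧ X.Sm a (cmb c l) (2 * X.K * X.n * x ^ 3 ^ J)) →
  ∀ c ∈ Set.Icc (0 : ℝ) 1, X.Sm (a * 4 ^ (2 * J)) (Finsupp.single c 1 - Finsupp.single 1 c)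
    (2 * X.K * X.n * ((18 * J + 2) * x))

def SLin : Prop := SAdd → Base → Rank → Lin

/-- One slope serves a dense set of differences. -/
def SAvg : Prop := ∀ (G E : Type) [AddCommGroup G] [NormedAddCommGroup E] [NormedSpace ℝ E]
  (X : Ctx G E), X.OK → ∀ (a : ℕ) (μ : ℝ), 4 * X.K ^ a ≤ X.n →
  (∀ c ∈ Set.Ioo (0 : ℝ) 1, X.Sm a (Finsupp.single c 1 - Finsupp.single 1 c) μ) →
  ∃ γ : E, ‖γ‖ ≤ (X.K : ℝ) ^ (a + 2) ∧ ∃ S : Finset G,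
    X.n ≤ X.K ^ (2 * a + 4) * (S.image X.ζ).card ∧
    ∀ σ ∈ S, (∃ x ∈ X.Γ, ∃ x' ∈ X.Γ, σ = x - x') ∧
      ‖X.g σ - (X.ζ σ : ℝ) • γ‖ ≤ μ + (X.K : ℝ) ^ (a + 3)

def SMatch : Prop := ∀ (G E : Type) [AddCommGroup G] [NormedAddCommGroup E] [NormedSpace ℝ E]
  (X : Ctx G E), X.OK → ∀ (b : ℕ) (N S : Finset G), N ⊆ X.Γ →
  X.n ≤ X.K * (N.image X.ζ).card → X.n ≤ X.K ^ b * (S.image X.ζ).card →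
  (∀ σ ∈ S, ∃ x ∈ X.Γ, ∃ x' ∈ X.Γ, σ = x - x') →
  ∃ N' ⊆ N, X.n ≤ X.K ^ (b + 3) * (N'.image X.ζ).card ∧
    ∀ x ∈ N', ∀ x' ∈ N', ∃ σ ∈ S, ∃ σ' ∈ S, x - x' = σ - σ'

/-! ### Segments -/

/-- `Line` for longer vectors and longer ranges. -/
def Line2 {k : ℕ} (U : Set (V k)) (n q : ℕ) (L₀ e : ℝ) : Prop :=
  ∀ q' ≤ q, ∀ (A : ℕ) (v : V k) (μ L : ℝ) (T : Finset ℤ), 1 ≤ A → 1 ≤ μ → 1 ≤ L → L₀ ≤ L →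
    A * μ * L ≤ ‖v‖ → ‖v‖ ≤ A * n → (∀ t ∈ T, |t| ≤ A * n) →
    (∀ t ∈ T, ∀ t' ∈ T, Nr U q' μ ((((t : ℝ) - t') / n) • v)) →
    (T.card : ℝ) ≤ 3 * A ^ 2 * (n * L ^ (-e))

def SLine2 : Prop := ∀ (k : ℕ) (U : Set (V k)) (n q : ℕ) (L₀ e : ℝ), 1 ≤ n →
  Line U n q L₀ e → Line2 U n q L₀ e

/-- A finite set of multipliers that detects large vectors. -/
def STup : Prop := ∀ (k : ℕ) (U : Set (V k)) (n q q' m A : ℕ) (L₀ e μ L : ℝ), 1 ≤ n →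
  Line2 U n q L₀ e → 2 * q' ≤ q → 1 ≤ A → 1 ≤ μ → 1 ≤ L → L₀ ≤ L →
  (3 * A * n : ℝ) ^ k * (3 * A ^ 2 * L ^ (-e)) ^ m < 1 →
  ∃ t : Fin m → ℤ, (∀ l, t l ∈ Finset.Ico (0 : ℤ) n) ∧ ∀ v : V k, ‖v‖ + 1 ≤ A * n →
    (∀ l, Nr U q' μ (((t l : ℝ) / n) • v)) → ‖v‖ ≤ A * (2 * μ + 2) * L + 1

/-- Two tuples of wide vectors with the same combination of the `p` parts. -/
def SPair : Prop := ∀ (k : ℕ) (U : Set (V k)) (Γ W : Finset (D k))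
  (n K m J s : ℕ) (t : Fin m → ℤ) (c : Fin J → ℝ), 1 ≤ n → 16 ≤ K → 1 ≤ J → Wd U Γ W n K →
  (∀ l, t l ∈ Finset.Ico (0 : ℤ) n) → (∀ i, c i ∈ Set.Icc (0 : ℝ) 1) →
  (3 * J * K * n) ^ (k * m) * K ^ (3 * m * J) < s ^ J →
  ∃ (y y' : Fin J → ℕ) (ω ω' : Fin J → Fin m → D k), y ≠ y' ∧
    (∀ i, y i < s ∧ y' i < s) ∧ (∀ i l, ω i l ∈ W ∧ ω' i l ∈ W) ∧
    (∀ i l, (ω i l).1 - (ω' i l).1 = ⌊(y i : ℝ) / s * t l⌋ - ⌊(y' i : ℝ) / s * t l⌋) ∧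
    ∀ l, ‖∑ i, c i • (gR k (ω i l) - gR k (ω' i l))‖ ≤ 1

/-- Any `J` scalars satisfy a real linear relation. -/
def Dep : Prop := ∀ (k : ℕ) (U : Set (V k)) (Γ W : Finset (D k))
  (n K m J s q : ℕ) (L₀ L e : ℝ), (ctx Γ n K).OK → Wd U Γ W n K → Line2 U n q L₀ e →
  4 * J ≤ q → 1 ≤ J → 1 ≤ L → L₀ ≤ L →
  (3 * (3 * J * K) * n : ℝ) ^ k * (3 * (3 * J * K) ^ 2 * L ^ (-e)) ^ m < 1 →
  (3 * J * K * n) ^ (k * m) * K ^ (3 * m * J) < s ^ J →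
  ∀ c : Fin J → ℝ, (∀ i, c i ∈ Set.Icc (0 : ℝ) 1) → ∃ l : Fin J → ℝ, ‖l‖ = 1 ∧
    (ctx Γ n K).Sm (3 * (J * (2 * m + 1))) (cmb c l) (73 * s * J ^ 2 * K ^ 2 * L)

def SDep : Prop := SBuild → STup → SPair → Dep

def Fin1 : Prop := ∀ (k : ℕ) (U : Set (V k)) (Γ S W : Finset (D k))
  (n K q b A : ℕ) (L₀ L e B ν : ℝ) (γ : V k), (ctx Γ n K).OK → Wd U Γ W n K →
  Line2 U n q L₀ e → 1 ≤ q → 1 ≤ L → L₀ ≤ L → 0 ≤ ν → ‖γ‖ ≤ B → K + K * B ≤ A →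
  n ≤ K ^ b * (S.image Prod.fst).card →
  (∀ σ ∈ S, (∃ x ∈ Γ, ∃ x' ∈ Γ, σ = x - x') ∧ ‖gR k σ - (σ.1 : ℝ) • γ‖ ≤ ν) →
  (3 * A ^ 2 * K ^ (b + 3) : ℝ) < L ^ e →
  ∀ v ∈ W, ‖gR k v + (v.1 : ℝ) • γ‖ ≤ A * (2 * K + K * (2 * ν)) * L

def SFin1 : Prop := SMatch → Fin1

/-! ### Constants -/

/-- The density exponent of the linear relations. -/
def ex (m J : ℕ) : ℕ := (3 * (J * (2 * m + 1)) + 10) * 4 ^ (2 * J)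

structure NumOK (k m J n K s : ℕ) (e c κ L x L' : ℝ) : Prop where
  L1 : 1 ≤ L
  L0 : (n : ℝ) ^ κ ≤ L
  tup : (3 * (3 * J * K) * n : ℝ) ^ k * (3 * (3 * J * K) ^ 2 * L ^ (-e)) ^ m < 1
  pair : (3 * J * K * n) ^ (k * m) * K ^ (3 * m * J) < s ^ J
  x0 : 0 < x
  x1 : x ≤ 1 / 2
  acc : (73 * s * J ^ 2 * K ^ 2 * L : ℝ) ≤ 2 * K * n * x ^ 3 ^ J
  avg : 4 * K ^ ex m J ≤ n
  L1' : 1 ≤ L'
  L0' : (n : ℝ) ^ κ ≤ L'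
  fin : (3 * (K + K * K ^ (ex m J + 2)) ^ 2 * K ^ (2 * ex m J + 4 + 3) : ℝ) < L' ^ e
  out : (K + K * K ^ (ex m J + 2) : ℝ) * (2 * K + K * (2 *
    (2 * K * n * ((18 * J + 2) * x) + K ^ (ex m J + 3)))) * L' ≤ n * (n : ℝ) ^ (-c)

def SNum : Prop := ∀ (k : ℕ) (e : ℝ), 0 < e → ∃ (m J n₀ : ℕ) (c κ : ℝ), 0 < c ∧ 0 < κ ∧ 1 ≤ J ∧
  ∀ n K : ℕ, n₀ ≤ n → 16 ≤ K → (K : ℝ) ≤ (n : ℝ) ^ (15 * κ) →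
    ∃ (s : ℕ) (L x L' : ℝ), NumOK k m J n K s e c κ L x L'

/-- The combinatorial theorem: the wide vectors lie near a line. -/
def SetT : Prop := ∀ (k : ℕ) (e : ℝ), 0 < e → ∃ (q C n₀ : ℕ) (c κ : ℝ), 0 < c ∧ 0 < κ ∧
  ∀ (n K : ℕ) (U : Set (V k)) (Γ T W : Finset (D k)), n₀ ≤ n → 2 ≤ K →
    (K : ℝ) ≤ (n : ℝ) ^ κ → Line U n q ((n : ℝ) ^ κ) e → T.card ≤ K * n →
    (∀ a ∈ Γ, ∀ b ∈ Γ, a - b ∈ T) → (∀ a ∈ Γ, |a.1| ≤ n) → (∀ a ∈ Γ, ‖gR k a‖ ≤ K * n) →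
    Wd U Γ W n K →
    ∃ γ : V k, ‖γ‖ ≤ (K : ℝ) ^ C ∧ ∀ v ∈ W, ‖gR k v + (v.1 : ℝ) • γ‖ ≤ n * (n : ℝ) ^ (-c)

def SSet : Prop := SFib → Lin → SAvg → SLine2 → Dep → Fin1 → SNum → SetT

theorem set_of (h1 : SFib) (h2 : SBuild) (h3 : SAdd) (h4 : SBase) (h5 : SHU) (h6 : SRank)
    (h7 : SLin) (h8 : SAvg) (h9 : SMatch) (h10 : SLine2) (h11 : STup) (h12 : SPair) (h13 : SDep)
    (h14 : SFin1) (h15 : SNum) (h16 : SSet) : SetT :=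
  h16 h1 (h7 h3 (h4 h2) (h6 h5)) h8 h10 (h13 h2 h11 h12) (h14 h9) h15

end Pool.Agent.MP_5168f5_an.H95F
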