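import Pool.Agent.MP_5168f5_an.H95F.Spec

/-! Sums of small combinations are small. -/

namespace Pool.Agent.MP_5168f5_an.H95F

open H17S Finset

theorem rowADD : SAdd := by
  intro G E _ _ _ X ok a a' m f f' μ μ' ⟨Z, d, s, h1, h2⟩ ⟨Z', d', s', h1', h2'⟩ hm
  classical
  have hK := ok.hK
  have hn := ok.hn
  obtain ⟨t, ht⟩ := shift Z id Z' (Finset.Ioo (-X.n : ℤ) X.n) fun z hz ρ hρ => by
    have e1 := Finset.mem_Ico.1 (h1.sub hz)
    have e2 := Finset.mem_Ico.1 (h1'.sub hρ)
    simp only [Finset.mem_Ioo, id]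
    omega
  simp only [id] at ht
  set Y := Z.filter fun z => z + t ∈ Z' with hY
  have hYZ : ∀ z ∈ Y, z ∈ Z ∧ z + t ∈ Z' := fun z hz => Finset.mem_filter.1 hz
  have hB : (Finset.Ioo (-X.n : ℤ) X.n).card ≤ X.K * X.n := by
    rw [Int.card_Ioo]
    have : 2 * X.n ≤ X.K * X.n := Nat.mul_le_mul_right _ (by omega)
    omega
  have hb : X.n ≤ X.K ^ (a + a' + 1) * Y.card := by
    refine Nat.le_of_mul_le_mul_right ?_ hn
    calc X.n * X.n ≤ X.K ^ a * Z.card * (X.K ^ a' * Z'.card) := Nat.mul_le_mul h1.big h1'.big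
      _ = X.K ^ (a + a') * (Z.card * Z'.card) := by ring
      _ ≤ X.K ^ (a + a') * (X.K * X.n * Y.card) :=
        Nat.mul_le_mul_left _ (ht.trans (Nat.mul_le_mul_right _ hB))
      _ = _ := by ring
  obtain ⟨W, w1, w2, w3⟩ := pig (f.support ∩ f'.support) Y (fun c z => d c z - d' c (z + t)) X.K
    fun c hc => by
      obtain ⟨T, hT, hT'⟩ := ok.few (s c - s' c - c * t)
      refine ⟨T, hT, fun z hz => ?_⟩
      have c1 := Finset.mem_coe.2 (Finset.mem_inter.1 hc).1
      have c2 := Finset.mem_coe.2 (Finset.mem_inter.1 hc).2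
      have m1 := h1.mem c c1 z (hYZ z hz).1
      have e : d c z + d c z - d' c (z + t) - d c z = d c z - d' c (z + t) := by abel
      rw [← e]
      refine hT' _ m1 _ m1 _ (h1'.mem c c2 _ (hYZ z hz).2) _ m1 ?_
      have z1 := abs_le.1 (h1.zet c c1 z (hYZ z hz).1)
      have z2 := abs_le.1 (h1'.zet c c2 _ (hYZ z hz).2)
      rw [e, map_sub]
      push_cast at z2 ⊢
      exact abs_le.2 ⟨by linarith, by linarith⟩
  have hs : ∀ c ∈ ((f + f').support : Set ℝ), c ∉ f.support → c ∈ (f'.support : Set ℝ) :=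
    fun c hc h => (Finset.mem_union.1 (Finsupp.support_add hc)).resolve_left h
  refine ⟨W, fun c z => if c ∈ f.support then d c z else d' c (z + t),
    fun c => if c ∈ f.support then s c else s' c + c * t,
    ⟨fun z hz => h1.sub (hYZ z (w1 hz)).1, ?_, fun c hc z hz => ?_, fun c hc z hz => ?_⟩,
    fun z hz z' hz' => ?_⟩
  · have e : X.K ^ (f.support ∩ f'.support).card ≤ X.K ^ m :=
      Nat.pow_le_pow_right (by omega) ((Finset.card_le_card Finset.inter_subset_left).trans hm)
    calc X.n ≤ X.K ^ (a + a' + 1) * (X.K ^ m * W.card) :=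
        hb.trans (Nat.mul_le_mul_left _ (w2.trans (Nat.mul_le_mul_right _ e)))
      _ = _ := by ring
  · split_ifs with h
    · exact h1.mem c h z (hYZ z (w1 hz)).1
    · exact h1'.mem c (hs c hc h) _ (hYZ z (w1 hz)).2
  · split_ifs with h
    · exact h1.zet c h z (hYZ z (w1 hz)).1
    · have := h1'.zet c (hs c hc h) _ (hYZ z (w1 hz)).2
      push_cast at this
      convert this using 2
      ring
  · rw [map_add]
    refine (norm_add_le _ _).trans (add_le_add ?_ ?_)
    · refine le_of_eq_of_le (congrArg _ (lc_congr fun c hc => ?_))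
        (h2 z (hYZ z (w1 hz)).1 z' (hYZ z' (w1 hz')).1)
      simp only [if_pos hc]
    · refine le_of_eq_of_le (congrArg _ (lc_congr fun c hc => ?_))
        (h2' _ (hYZ z (w1 hz)).2 _ (hYZ z' (w1 hz')).2)
      beta_reduce
      split_ifs with h
      · have := w3 c (Finset.mem_inter.2 ⟨h, hc⟩) z hz z' hz'
        rw [sub_eq_sub_iff_sub_eq_sub.1 this]
      · rfl

end Pool.Agent.MP_5168f5_an.H95F
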