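import Pool.Agent.MP_5168f5_an.H95F.Spec

/-! One slope serves a dense set of differences. -/

namespace Pool.Agent.MP_5168f5_an.H95F

open H17S Finset

namespace AVGA

variable {G E : Type} [AddCommGroup G] [NormedAddCommGroup E] [NormedSpace ℝ E]

/-- The data attached to a scalar and a difference. -/
def Gd (X : Ctx G E) (μ c : ℝ) (h : ℤ) (p : G × G) : Prop :=
  (∃ x ∈ X.Γ, ∃ x' ∈ X.Γ, p.1 = x - x') ∧ (∃ y ∈ X.Γ, ∃ y' ∈ X.Γ, p.2 = y - y') ∧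
    |(X.ζ p.1 : ℝ) - h| ≤ 2 ∧ |(X.ζ p.2 : ℝ) - c * h| ≤ 2 ∧ ‖X.g p.2 - c • X.g p.1‖ ≤ μ

theorem far (Z : Finset ℤ) (n Q : ℕ) (z₀ : ℤ) (hQ : 1 ≤ Q) (h4 : 4 * Q ≤ n)
    (hZ : n ≤ Q * Z.card) :
    n ≤ 4 * Q * (Z.filter fun z => (n : ℤ) ≤ 4 * Q * |z - z₀|).card := by
  obtain ⟨t, ht1, ht2⟩ : ∃ t : ℕ, 4 * Q * t ≤ n ∧ n < 4 * Q * (t + 1) :=
    ⟨n / (4 * Q), Nat.mul_div_le _ _, Nat.lt_mul_div_succ _ (by omega)⟩
  have h1 : (Z.filter fun z => ¬ (n : ℤ) ≤ 4 * Q * |z - z₀|) ⊆ Finset.Icc (z₀ - t) (z₀ + t) := by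
    intro z hz
    have h2 := not_le.1 (mem_filter.1 hz).2
    have h3 : (n : ℤ) < 4 * Q * (t + 1) := by exact_mod_cast ht2
    have h5 : |z - z₀| < t + 1 :=
      lt_of_mul_lt_mul_left (h2.trans h3) (by positivity)
    rw [abs_lt] at h5
    rw [mem_Icc]
    omega
  have h2 := card_le_card h1
  rw [Int.card_Icc] at h2
  have h3 : (z₀ + t + 1 - (z₀ - t)).toNat = 2 * t + 1 := by omega
  rw [h3] at h2
  have h5 := card_filter_add_card_filter_not (s := Z) fun z => (n : ℤ) ≤ 4 * Q * |z - z₀|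
  have h6 := Nat.mul_le_mul_left Q h2
  rw [← h5] at hZ
  nlinarith

theorem one (X : Ctx G E) (hX : X.OK) {a : ℕ} {μ c : ℝ} (h4 : 4 * X.K ^ a ≤ X.n)
    (hc : c ∈ Set.Ioo (0 : ℝ) 1)
    (h : X.Sm a (Finsupp.single c 1 - Finsupp.single 1 c) μ) :
    ∃ H : Finset ℤ, H ⊆ Finset.Ioo (-(X.n : ℤ)) X.n ∧ X.n ≤ 4 * X.K ^ a * H.card ∧
      ∀ h ∈ H, (X.n : ℤ) ≤ 4 * (X.K ^ a : ℕ) * |h| ∧ ∃ p, Gd X μ c h p := by
  obtain ⟨Z, d, s, hF, hμ⟩ := h
  have hK := hX.hK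
  have hQ : 1 ≤ X.K ^ a := Nat.one_le_pow _ _ (by omega)
  have hc1 : c ≠ 1 := hc.2.ne
  have m1 : c ∈ (((Finsupp.single c 1 - Finsupp.single 1 c : ℝ →₀ ℝ)).support : Set ℝ) := by
    simp [Finsupp.single_apply, hc1.symm]
  have m2 : (1 : ℝ) ∈ (((Finsupp.single c 1 - Finsupp.single 1 c : ℝ →₀ ℝ)).support : Set ℝ) := by
    simp [Finsupp.single_apply, hc1, hc.1.ne']
  obtain ⟨z₀, hz₀⟩ : Z.Nonempty := by
    rcases Z.eq_empty_or_nonempty with rfl | h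
    · have := hF.big
      have := hX.hn
      simp at *
      omega
    · exact h
  refine ⟨(Z.filter fun z => (X.n : ℤ) ≤ 4 * (X.K ^ a : ℕ) * |z - z₀|).image (· - z₀), ?_, ?_, ?_⟩
  · intro h hh
    obtain ⟨z, hz, rfl⟩ := mem_image.1 hh
    have a1 := mem_Ico.1 (hF.sub (mem_filter.1 hz).1)
    have a2 := mem_Ico.1 (hF.sub hz₀)
    rw [mem_Ioo]
    omega
  · rw [card_image_of_injective _ sub_left_injective]
    exact far Z X.n (X.K ^ a) z₀ hQ h4 hF.big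
  · intro h hh
    obtain ⟨z, hz, rfl⟩ := mem_image.1 hh
    obtain ⟨hz, hz'⟩ := mem_filter.1 hz
    refine ⟨hz', (d 1 z - d 1 z₀, d c z - d c z₀),
      ⟨_, hF.mem 1 m2 z hz, _, hF.mem 1 m2 z₀ hz₀, rfl⟩,
      ⟨_, hF.mem c m1 z hz, _, hF.mem c m1 z₀ hz₀, rfl⟩, ?_, ?_, ?_⟩
    · have a1 := abs_le.1 (hF.zet 1 m2 z hz)
      have a2 := abs_le.1 (hF.zet 1 m2 z₀ hz₀)
      simp only [map_sub]
      push_cast
      rw [abs_le]
      constructor <;> linarith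
    · have a1 := abs_le.1 (hF.zet c m1 z hz)
      have a2 := abs_le.1 (hF.zet c m1 z₀ hz₀)
      simp only [map_sub]
      push_cast
      rw [abs_le]
      constructor <;> linarith
    · have := hμ z hz z₀ hz₀
      rw [map_sub, Finsupp.linearCombination_single, Finsupp.linearCombination_single,
        one_smul] at this
      exact this

theorem dbl (J B : Finset ℤ) (H : ℤ → Finset ℤ) (hB : B.Nonempty) (n R : ℕ)
    (h1 : ∀ j ∈ J, H j ⊆ B) (h2 : ∀ j ∈ J, n ≤ R * (H j).card) :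
    ∃ h : ℤ, J.card * n ≤ R * (B.card * (J.filter fun j => h ∈ H j).card) := by
  obtain ⟨h, -, hmax⟩ := exists_max_image B (fun h => (J.filter fun j => h ∈ H j).card) hB
  refine ⟨h, ?_⟩
  have a1 : ∑ t ∈ B, (J.filter fun j => t ∈ H j).card ≤
      B.card * (J.filter fun j => h ∈ H j).card := sum_le_card_nsmul _ _ _ hmax
  have a2 : ∑ t ∈ B, (J.filter fun j => t ∈ H j).card = ∑ j ∈ J, (H j).card := by
    simp only [card_filter]
    rw [sum_comm]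
    refine sum_congr rfl fun j hj => ?_
    rw [← card_filter, filter_mem_eq_inter, inter_eq_right.2 (h1 j hj)]
  have a3 : J.card * n ≤ ∑ j ∈ J, R * (H j).card := by
    simpa using card_nsmul_le_sum _ _ _ h2
  rw [← mul_sum, ← a2] at a3
  exact a3.trans (Nat.mul_le_mul_left _ a1)

theorem fib {n Q : ℕ} {h j j' m : ℤ} (hn : 1 ≤ n) (hh : (n : ℤ) ≤ 4 * Q * |h|)
    (h1 : |(m : ℝ) - (j : ℝ) / n * h| ≤ 2) (h2 : |(m : ℝ) - (j' : ℝ) / n * h| ≤ 2) :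
    |j - j'| ≤ 16 * Q := by
  have hn' : (0 : ℝ) < n := by exact_mod_cast hn
  have hh' : (n : ℝ) ≤ 4 * Q * |(h : ℝ)| := by exact_mod_cast hh
  have a1 : |((j : ℝ) - j') / n * h| ≤ 4 := by
    rw [abs_le] at h1 h2 ⊢
    rw [sub_div, sub_mul]
    constructor <;> linarith
  rw [abs_mul, abs_div, abs_of_pos hn', div_mul_eq_mul_div, div_le_iff₀ hn'] at a1
  have a2 : |(j : ℝ) - j'| * n ≤ 16 * Q * n := by
    have b1 := mul_le_mul_of_nonneg_left hh' (abs_nonneg ((j : ℝ) - j'))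
    have b2 := mul_le_mul_of_nonneg_left a1 (show (0 : ℝ) ≤ 4 * Q by positivity)
    nlinarith
  have a3 : |(j : ℝ) - j'| ≤ 16 * Q := le_of_mul_le_mul_right a2 hn'
  exact_mod_cast a3

end AVGA

open AVGA in
theorem rowAVG : SAvg := by
  classical
  intro G E _ _ _ X hX a μ h4 hS
  have hK := hX.hK
  have hn := hX.hn
  have hQ : 1 ≤ X.K ^ a := Nat.one_le_pow _ _ (by omega)
  have hn' : (0 : ℝ) < X.n := by exact_mod_cast hn
  have hc : ∀ j ∈ Finset.Ioo (0 : ℤ) X.n, (j : ℝ) / X.n ∈ Set.Ioo (0 : ℝ) 1 := fun j hj => by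
    obtain ⟨a1, a2⟩ := mem_Ioo.1 hj
    refine ⟨div_pos (by exact_mod_cast a1) hn', (div_lt_one hn').2 (by exact_mod_cast a2)⟩
  choose! H H1 H2 H3 using fun j hj => one X hX h4 (hc j hj) (hS _ (hc j hj))
  obtain ⟨h, hh⟩ := dbl (Finset.Ioo (0 : ℤ) X.n) (Finset.Ioo (-(X.n : ℤ)) X.n) H
    ⟨0, by rw [mem_Ioo]; omega⟩ X.n (4 * X.K ^ a) H1 H2
  set C := (Finset.Ioo (0 : ℤ) X.n).filter fun j => h ∈ H j with hCdef
  have hC : X.n ≤ 16 * X.K ^ a * C.card := by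
    rw [Int.card_Ioo, Int.card_Ioo] at hh
    have e1 : X.n ≤ 2 * ((X.n : ℤ) - 0 - 1).toNat := by omega
    have e2 : ((X.n : ℤ) - -(X.n : ℤ) - 1).toNat ≤ 2 * X.n := by omega
    have e3 := Nat.mul_le_mul_left (4 * X.K ^ a) (Nat.mul_le_mul_right C.card e2)
    have e4 := Nat.mul_le_mul_right X.n e1
    refine Nat.le_of_mul_le_mul_right ?_ hn
    nlinarith
  have hG : ∀ j ∈ C, (X.n : ℤ) ≤ 4 * (X.K ^ a : ℕ) * |h| ∧ ∃ p, Gd X μ ((j : ℝ) / X.n) h p :=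
    fun j hj => H3 j (mem_filter.1 hj).1 h (mem_filter.1 hj).2
  choose! hh0 p hp using hG
  obtain ⟨T, hT, hT'⟩ := hX.few h
  obtain ⟨C', c1, c2, c3⟩ := pig1 C (fun j => (p j).1) T fun j hj => by
    obtain ⟨⟨x, hx, x', hx', e⟩, -, h3, -⟩ := hp j hj
    have e' : (p j).1 = x + x - x' - x := by rw [e]; abel
    rw [e'] at h3 ⊢
    exact hT' x hx x hx x' hx' x hx (h3.trans (by norm_num))
  have c4 : C.card ≤ X.K * C'.card := c2.trans (Nat.mul_le_mul_right _ hT)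
  obtain ⟨j₀, hj₀⟩ : C'.Nonempty := by
    rcases C'.eq_empty_or_nonempty with e | e
    · rw [e, card_empty, mul_zero, Nat.le_zero] at c4
      rw [c4] at hC
      omega
    · exact e
  have hh1 := hh0 j₀ (c1 hj₀)
  have hh2 : (X.n : ℝ) ≤ 4 * (X.K : ℝ) ^ a * |(h : ℝ)| := by exact_mod_cast hh1
  have hK' : (16 : ℝ) ≤ X.K := by exact_mod_cast hK
  have hQ' : (0 : ℝ) < (X.K : ℝ) ^ a := by positivity
  have h0 : (h : ℝ) ≠ 0 := fun e => by
    rw [e, abs_zero, mul_zero] at hh2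
    linarith
  have hγ : ‖(h : ℝ)⁻¹ • X.g (p j₀).1‖ ≤ 8 * X.K * (X.K : ℝ) ^ a := by
    obtain ⟨⟨x, hx, x', hx', e⟩, -⟩ := hp j₀ (c1 hj₀)
    have a1 : ‖X.g (p j₀).1‖ ≤ 2 * (X.K * X.n) := by
      rw [e, map_sub]
      exact (norm_sub_le _ _).trans (by linarith [hX.gb x hx, hX.gb x' hx'])
    rw [norm_smul, norm_inv, Real.norm_eq_abs, inv_mul_le_iff₀ (abs_pos.2 h0)]
    have a2 := mul_le_mul_of_nonneg_left hh2 (show (0 : ℝ) ≤ 2 * X.K by positivity)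
    linarith
  refine ⟨(h : ℝ)⁻¹ • X.g (p j₀).1, hγ.trans ?_, C'.image fun j => (p j).2, ?_, ?_⟩
  · rw [pow_add]
    nlinarith [mul_pos hQ' (show (0 : ℝ) < X.K by linarith)]
  · rw [image_image]
    have a1 := card_le_mul_card_image (f := X.ζ ∘ fun j => (p j).2) C' (33 * X.K ^ a)
      fun m hm => by
        obtain ⟨j, hj, rfl⟩ := mem_image.1 hm
        have b1 : (C'.filter fun x => (X.ζ ∘ fun j => (p j).2) x = (X.ζ ∘ fun j => (p j).2) j) ⊆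
            Finset.Icc (j - 16 * (X.K ^ a : ℕ)) (j + 16 * (X.K ^ a : ℕ)) := by
          intro j' hj'
          obtain ⟨b2, b3⟩ := mem_filter.1 hj'
          have b4 := (hp j' (c1 b2)).2.2.2.1
          have b5 := (hp j (c1 hj)).2.2.2.1
          simp only [Function.comp_apply] at b3
          rw [b3] at b4
          have b6 := abs_le.1 (fib hn hh1 b4 b5)
          rw [mem_Icc]
          omega
        have b2 := card_le_card b1
        rw [Int.card_Icc] at b2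
        omega
    set I := (C'.image (X.ζ ∘ fun j => (p j).2)).card
    have a2 : X.n ≤ 16 * X.K ^ a * (X.K * (33 * X.K ^ a * I)) :=
      hC.trans (Nat.mul_le_mul_left _ (c4.trans (Nat.mul_le_mul_left _ a1)))
    have a3 : 528 ≤ X.K ^ 3 := le_trans (by norm_num) (Nat.pow_le_pow_left hK 3)
    calc X.n ≤ 528 * (X.K * (X.K ^ a * X.K ^ a) * I) := a2.trans (le_of_eq (by ring))
      _ ≤ X.K ^ 3 * (X.K * (X.K ^ a * X.K ^ a) * I) := Nat.mul_le_mul_right _ a3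
      _ = X.K ^ (2 * a + 4) * I := by ring
  · intro σ hσ
    obtain ⟨j, hj, rfl⟩ := mem_image.1 hσ
    obtain ⟨-, b1, -, b2, b3⟩ := hp j (c1 hj)
    refine ⟨b1, ?_⟩
    rw [c3 j hj j₀ hj₀] at b3
    have e : X.g (p j).2 - (X.ζ (p j).2 : ℝ) • (h : ℝ)⁻¹ • X.g (p j₀).1 =
        (X.g (p j).2 - ((j : ℝ) / X.n) • X.g (p j₀).1) -
          ((X.ζ (p j).2 : ℝ) - (j : ℝ) / X.n * h) • (h : ℝ)⁻¹ • X.g (p j₀).1 := by
      rw [sub_smul, smul_smul ((j : ℝ) / X.n * h), mul_assoc, mul_inv_cancel₀ h0, mul_one]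
      abel
    rw [e]
    refine (norm_sub_le _ _).trans (add_le_add b3 ?_)
    rw [norm_smul, Real.norm_eq_abs]
    refine (mul_le_mul b2 hγ (norm_nonneg _) (by norm_num)).trans ?_
    rw [pow_add]
    have b4 : (16 : ℝ) * X.K ≤ (X.K : ℝ) ^ 3 := by nlinarith [mul_self_nonneg (X.K : ℝ)]
    nlinarith

end Pool.Agent.MP_5168f5_an.H95F
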