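import Pool.Agent.MP_5168f5_an.H95F.Spec

/-! The two basic families. -/

namespace Pool.Agent.MP_5168f5_an.H95F

open H17S Finset

namespace BASEA

variable {G E : Type} [AddCommGroup G] [NormedAddCommGroup E] [NormedSpace ℝ E]

theorem part1 (hB : SBuild) (X : Ctx G E) (hX : X.OK) (J : ℕ) (c l : Fin J → ℝ)
    (hc : ∀ i, c i ∈ Set.Icc (0 : ℝ) 1) :
    X.Sm (3 * J) (cmb c l) (2 * X.K * X.n * (J * ‖l‖)) := by
  have hK1 : 1 ≤ X.K := le_trans (by norm_num) hX.hK
  obtain ⟨Z, d, s, hF, -⟩ := hB G E X hX (Fin J) c (fun _ => X.Γ) hc (fun _ => subset_rfl)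
    fun _ => hX.wide
  rw [Fintype.card_fin] at hF
  refine ⟨Z, d, s, hF.mono hK1 le_rfl fun x hx => mem_support_cmb c l hx, fun z hz z' hz' => ?_⟩
  rw [lc_cmb]
  refine (norm_sum_le _ _).trans ?_
  have h1 : ∀ i ∈ (Finset.univ : Finset (Fin J)),
      ‖l i • X.g (d (c i) z - d (c i) z')‖ ≤ ‖l‖ * (2 * X.K * X.n) := by
    intro i _
    rw [norm_smul, map_sub]
    refine mul_le_mul (norm_le_pi_norm l i) ((norm_sub_le _ _).trans ?_) (norm_nonneg _)
      (norm_nonneg _)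
    have a1 := hX.gb _ (hF.mem (c i) ⟨i, rfl⟩ z hz)
    have a2 := hX.gb _ (hF.mem (c i) ⟨i, rfl⟩ z' hz')
    linarith
  refine (Finset.sum_le_card_nsmul _ _ _ h1).trans (le_of_eq ?_)
  simp only [Finset.card_univ, Fintype.card_fin, nsmul_eq_mul]
  ring

theorem part2 (hB : SBuild) (X : Ctx G E) (hX : X.OK) (c c' : ℝ) (h0 : 0 ≤ c) (h0' : 0 ≤ c')
    (h1 : c + c' ≤ 1) :
    X.Sm 10 (Finsupp.single (c + c') 1 - Finsupp.single c 1 - Finsupp.single c' 1) 0 := by
  have hK1 : 1 ≤ X.K := le_trans (by norm_num) hX.hK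
  have hc : ∀ i : Fin 3, (![c + c', c, c'] : Fin 3 → ℝ) i ∈ Set.Icc (0 : ℝ) 1 := by
    intro i
    fin_cases i
    · exact ⟨add_nonneg h0 h0', h1⟩
    · exact ⟨h0, by change c ≤ 1; linarith⟩
    · exact ⟨h0', by change c' ≤ 1; linarith⟩
  obtain ⟨Z, d, s, hF, -⟩ := hB G E X hX (Fin 3) ![c + c', c, c'] (fun _ => X.Γ) hc
    (fun _ => subset_rfl) fun _ => hX.wide
  rw [Fintype.card_fin] at hF
  have m1 : c + c' ∈ Set.range (![c + c', c, c'] : Fin 3 → ℝ) := ⟨0, rfl⟩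
  have m2 : c ∈ Set.range (![c + c', c, c'] : Fin 3 → ℝ) := ⟨1, rfl⟩
  have m3 : c' ∈ Set.range (![c + c', c, c'] : Fin 3 → ℝ) := ⟨2, rfl⟩
  have hne : X.Γ.Nonempty := by
    rcases X.Γ.eq_empty_or_nonempty with h | h
    · have a1 := hX.wide
      have a2 := hX.hn
      rw [h] at a1
      simp at a1
      omega
    · exact h
  obtain ⟨g0, hg0⟩ := hne
  obtain ⟨T, hT, hT'⟩ := hX.few (s (c + c') + X.ζ g0 - s c - s c')
  obtain ⟨Z', hZ1, hZ2, hZ3⟩ := pig1 Z (fun z => d (c + c') z + g0 - d c z - d c' z) T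
    fun z hz => by
      refine hT' _ (hF.mem _ m1 z hz) _ hg0 _ (hF.mem _ m2 z hz) _ (hF.mem _ m3 z hz) ?_
      have a1 := abs_le.1 (hF.zet _ m1 z hz)
      have a2 := abs_le.1 (hF.zet _ m2 z hz)
      have a3 := abs_le.1 (hF.zet _ m3 z hz)
      simp only [map_sub, map_add]
      push_cast
      rw [abs_le]
      constructor <;> linarith [a1.1, a1.2, a2.1, a2.2, a3.1, a3.2]
  have hsupp : ((Finsupp.single (c + c') 1 - Finsupp.single c 1 - Finsupp.single c' 1 :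
      ℝ →₀ ℝ).support : Set ℝ) ⊆ Set.range (![c + c', c, c'] : Fin 3 → ℝ) := by
    intro x hx
    by_contra hn
    have e1 : c + c' ≠ x := fun h => hn (h ▸ m1)
    have e2 : c ≠ x := fun h => hn (h ▸ m2)
    have e3 : c' ≠ x := fun h => hn (h ▸ m3)
    rw [Finset.mem_coe, Finsupp.mem_support_iff] at hx
    apply hx
    simp [Finsupp.single_eq_of_ne e1.symm, Finsupp.single_eq_of_ne e2.symm,
      Finsupp.single_eq_of_ne e3.symm]
  refine ⟨Z', d, s, ⟨hZ1.trans hF.sub, ?_, fun x hx z hz => hF.mem x (hsupp hx) z (hZ1 hz),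
    fun x hx z hz => hF.zet x (hsupp hx) z (hZ1 hz)⟩, fun z hz z' hz' => ?_⟩
  · refine hF.big.trans ((Nat.mul_le_mul_left _ (hZ2.trans (Nat.mul_le_mul_right _ hT))).trans
      (le_of_eq (by ring)))
  · have h := hZ3 z hz z' hz'
    have e : d (c + c') z - d (c + c') z' - (d c z - d c z') - (d c' z - d c' z') = 0 := by
      have : d (c + c') z - d (c + c') z' - (d c z - d c z') - (d c' z - d c' z') =
          (d (c + c') z + g0 - d c z - d c' z) - (d (c + c') z' + g0 - d c z' - d c' z') := by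
        abel
      rw [this, h, sub_self]
    rw [map_sub, map_sub]
    simp only [Finsupp.linearCombination_single, one_smul]
    rw [← map_sub, ← map_sub, e, map_zero, norm_zero]

end BASEA

theorem rowBASE : SBase := fun hB _ _ _ _ _ X hX =>
  ⟨fun J c l hc => BASEA.part1 hB X hX J c l hc,
    fun c c' h0 h0' h1 => BASEA.part2 hB X hX c c' h0 h0' h1⟩

end Pool.Agent.MP_5168f5_an.H95F
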