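import Pool.Agent.MP_5168f5_an.H95F.Spec

/-! Construction of a family with prescribed neighbourhoods. -/

namespace Pool.Agent.MP_5168f5_an.H95F

open H17S Finset

theorem rowBUILD : SBuild := by
  intro G E _ _ _ X hX A _ c N hc hN hw
  classical
  have hcard : (Finset.Ico (0 : ℤ) X.n).card = X.n := by simp
  rcases isEmpty_or_nonempty A with hA | hA
  · refine ⟨Finset.Ico (0 : ℤ) X.n, fun _ _ => 0, fun _ => 0, ⟨subset_rfl, ?_, ?_, ?_⟩,
      fun a => isEmptyElim a⟩
    · simp
    · rintro _ ⟨a, rfl⟩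
      exact isEmptyElim a
    · rintro _ ⟨a, rfl⟩
      exact isEmptyElim a
  have hn := hX.hn
  have hK := hX.hK
  obtain ⟨s, Z₁, h1, h2, h3⟩ := shifts (H := ℤ) (Finset.univ : Finset A) (Finset.Ico (0 : ℤ) X.n)
    (fun a z => ⌊c a * z⌋) (fun a => (N a).image X.ζ)
    (fun _ => Finset.Ioc (-(2 * X.n : ℤ)) X.n) (X.K ^ 2)
    (fun a _ z hz ρ hρ => by
      obtain ⟨u, hu, rfl⟩ := Finset.mem_image.1 hρ
      have hb := abs_le.1 (hX.zb u (hN a hu))
      obtain ⟨hz0, hz1⟩ := Finset.mem_Ico.1 hz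
      have hz0' : (0 : ℝ) ≤ z := by exact_mod_cast hz0
      have f0 : 0 ≤ ⌊c a * z⌋ := Int.floor_nonneg.2 (mul_nonneg (hc a).1 hz0')
      have f1 : ⌊c a * z⌋ ≤ z := by
        have : c a * z ≤ (z : ℝ) := mul_le_of_le_one_left hz0' (hc a).2
        exact (Int.floor_le_floor this).trans (by rw [Int.floor_intCast])
      exact Finset.mem_Ioc.2 ⟨by omega, by omega⟩)
    (fun a _ => by
      rw [← Finset.card_pos]
      rcases Nat.eq_zero_or_pos ((N a).image X.ζ).card with h0 | h0
      · have := hw a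
        rw [h0] at this
        omega
      · exact h0)
    (fun a _ => by
      have e : (Finset.Ioc (-(2 * X.n : ℤ)) X.n).card = 3 * X.n := by
        rw [Int.card_Ioc]
        omega
      rw [e]
      calc 3 * X.n ≤ X.K * (X.K * ((N a).image X.ζ).card) := Nat.mul_le_mul (by omega) (hw a)
        _ = X.K ^ 2 * ((N a).image X.ζ).card := by ring)
  have hx : ∀ (a : A) (z : ℤ), ∃ u : G, z ∈ Z₁ → u ∈ N a ∧ X.ζ u = ⌊c a * z⌋ + s a := by
    intro a z
    by_cases hz : z ∈ Z₁
    · obtain ⟨u, hu, e⟩ := Finset.mem_image.1 (h3 a (Finset.mem_univ a) z hz)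
      exact ⟨u, fun _ => ⟨hu, e⟩⟩
    · exact ⟨0, fun h => absurd h hz⟩
  choose x hx using hx
  have hr : ∀ a, c (Function.invFun c (c a)) = c a := fun a => Function.invFun_eq ⟨a, rfl⟩
  obtain ⟨Z₂, h4, h5, h6⟩ := pig (Finset.univ : Finset A) Z₁
    (fun a z => x a z - x (Function.invFun c (c a)) z) X.K (fun a _ => by
      obtain ⟨T, hT, hT'⟩ := hX.few ((s a - s (Function.invFun c (c a)) : ℤ) : ℝ)
      refine ⟨T, hT, fun z hz => ?_⟩
      have hu := hx a z hz
      have hv := hx (Function.invFun c (c a)) z hz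
      have e : x a z + x a z - x (Function.invFun c (c a)) z - x a z =
          x a z - x (Function.invFun c (c a)) z := by abel
      have := hT' _ (hN _ hu.1) _ (hN _ hu.1) _ (hN _ hv.1) _ (hN _ hu.1)
      rw [e] at this
      refine this ?_
      have e2 : X.ζ (x a z - x (Function.invFun c (c a)) z) =
          s a - s (Function.invFun c (c a)) := by
        rw [map_sub, hu.2, hv.2, hr a]
        ring
      rw [e2, sub_self, abs_zero]
      norm_num)
  refine ⟨Z₂, fun t z => x (Function.invFun c t) z, fun t => s (Function.invFun c t),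
    ⟨h4.trans h1, ?_, ?_, ?_⟩, fun a z hz z' hz' => ?_⟩
  · rw [hcard, Finset.card_univ] at h2
    rw [Finset.card_univ] at h5
    calc X.n ≤ (X.K ^ 2) ^ Fintype.card A * (X.K ^ Fintype.card A * Z₂.card) :=
          h2.trans (Nat.mul_le_mul_left _ h5)
      _ = X.K ^ (3 * Fintype.card A) * Z₂.card := by ring
  · rintro _ ⟨a, rfl⟩ z hz
    exact hN _ (hx _ z (h4 hz)).1
  · rintro _ ⟨a, rfl⟩ z hz
    rw [(hx _ z (h4 hz)).2, hr a]
    push_cast
    have f0 := Int.floor_le (c a * z)
    have f1 := Int.lt_floor_add_one (c a * z)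
    rw [abs_le]
    constructor <;> linarith
  · refine ⟨x a z, (hx a z (h4 hz)).1, x a z', (hx a z' (h4 hz')).1, ?_⟩
    have e := h6 a (Finset.mem_univ a) z hz z' hz'
    have e' : x (Function.invFun c (c a)) z - x (Function.invFun c (c a)) z' =
        (x a z - x a z') - ((x a z - x (Function.invFun c (c a)) z) -
          (x a z' - x (Function.invFun c (c a)) z')) := by abel
    rw [e', e, sub_self, sub_zero]

end Pool.Agent.MP_5168f5_an.H95F
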