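import Pool.Agent.MP_5168f5_an.H95F.Spec

/-! Any long tuple of scalars satisfies a real linear relation. -/

namespace Pool.Agent.MP_5168f5_an.H95F

open H17S Finset

namespace DEPA

theorem small {k : ℕ} {n a b B : ℝ} (hn : 0 < n) {x : V k} (ha : |a| ≤ b) (hx : ‖x‖ ≤ B * n) :
    ‖(a / n) • x‖ ≤ b * B := by
  have hb := (abs_nonneg a).trans ha
  rw [norm_smul, Real.norm_eq_abs, abs_div, abs_of_pos hn, div_mul_eq_mul_div, div_le_iff₀ hn,
    mul_assoc]
  gcongr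

theorem fl (a b : ℝ) : |a - b - ((⌊a⌋ - ⌊b⌋ : ℤ) : ℝ)| ≤ 1 := by
  push_cast
  rw [abs_le]
  constructor <;> linarith [Int.floor_le a, Int.floor_le b, Int.lt_floor_add_one a,
    Int.lt_floor_add_one b]

end DEPA

open DEPA in
theorem rowDEP : SDep := by
  intro hB hT hP k U Γ W n K m J s q L₀ L e hX hW hL hq hJ hL1 hL0 htup hpair c hc
  have hn : 1 ≤ n := hX.hn
  have hK : 16 ≤ K := hX.hK
  have hn' : (1 : ℝ) ≤ n := by exact_mod_cast hn
  have hJK : 1 ≤ J * K := Nat.mul_pos hJ (by omega)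
  have hJK' : (1 : ℝ) ≤ J * K := by exact_mod_cast hJK
  obtain ⟨t, ht, htv⟩ := hT k U n q (J * (1 + 1)) m (3 * J * K) L₀ e (11 * (J * K)) L hn hL
    (by omega) (by rw [mul_assoc]; omega) (by linarith) hL1 hL0 (by push_cast; exact htup)
  obtain ⟨y, y', ω, ω', hy, hys, hω, hfl, hp⟩ := hP k U Γ W n K m J s t c hn hK hJ hW ht hc hpair
  have h1 : ∀ v, ∃ N ⊆ Γ, n ≤ K * (N.image Prod.fst).card ∧
      (v ∈ W → ∀ d ∈ N, ∃ a ∈ U, ‖MM n d v - a‖ ≤ K) := fun v => by
    by_cases hv : v ∈ W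
    · obtain ⟨N, a1, a2, a3⟩ := hW.nb v hv
      exact ⟨N, a1, a2, fun _ => a3⟩
    · exact ⟨Γ, subset_rfl, hX.wide, fun h => absurd h hv⟩
  choose Nb b1 b2 b3 using h1
  obtain ⟨Z, d, s0, hF, hd⟩ := hB _ _ _ hX (Fin J × Option (Fin m × Bool)) (fun a => c a.1)
    (fun a => a.2.elim Γ fun b => Nb (bif b.2 then ω a.1 b.1 else ω' a.1 b.1)) (fun a => hc _)
    (by rintro ⟨i, _ | b⟩; exacts [subset_rfl, b1 _])
    (by rintro ⟨i, _ | b⟩; exacts [hX.wide, b2 _])
  set u : Fin J → ℝ := fun i => (y i : ℝ) - y' i with hu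
  have hu1 : 1 ≤ ‖u‖ := by
    obtain ⟨i, hi⟩ := Function.ne_iff.1 hy
    refine le_trans ?_ (norm_le_pi_norm u i)
    have : (1 : ℤ) ≤ |(y i : ℤ) - y' i| := Int.one_le_abs (by omega)
    show 1 ≤ |(y i : ℝ) - y' i|
    exact_mod_cast this
  have hs : (0 : ℝ) < s := by exact_mod_cast (Nat.zero_le _).trans_lt (hys ⟨0, hJ⟩).1
  refine ⟨‖u‖⁻¹ • u, norm_smul_inv_norm (𝕜 := ℝ) (norm_pos_iff.1 (by linarith)), Z, d, s0,
    hF.mono (by show 1 ≤ K; omega) (by simp [mul_comm]) fun x hx => ?_, fun z hz z' hz' => ?_⟩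
  · obtain ⟨i, hi⟩ := mem_support_cmb _ _ hx
    exact ⟨(i, none), hi⟩
  set E : Fin J → D k := fun i => d (c i) z - d (c i) z' with hE
  have mc : ∀ i, c i ∈ Set.range fun a : Fin J × Option (Fin m × Bool) => c a.1 :=
    fun i => ⟨(i, none), rfl⟩
  have hg : ∀ i, ‖gR k (E i)‖ ≤ 2 * K * n := fun i => by
    have a1 : ‖gR k _‖ ≤ (K : ℝ) * n := hX.gb _ (hF.mem _ (mc i) z hz)
    have a2 : ‖gR k _‖ ≤ (K : ℝ) * n := hX.gb _ (hF.mem _ (mc i) z' hz')
    rw [hE, map_sub]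
    linarith [norm_sub_le (gR k (d (c i) z)) (gR k (d (c i) z'))]
  have hζ : ∀ i, |((E i).1 : ℝ) - c i * (z - z')| ≤ 2 := fun i => by
    have a1 : |((d (c i) z).1 : ℝ) - _ - _| ≤ 1 := hF.zet _ (mc i) z hz
    have a2 : |((d (c i) z').1 : ℝ) - _ - _| ≤ 1 := hF.zet _ (mc i) z' hz'
    rw [abs_le] at *
    simp only [hE, Prod.fst_sub, Int.cast_sub]
    constructor <;> linarith [a1.1, a1.2, a2.1, a2.2]
  have hzz : |(z : ℝ) - z'| ≤ n := by
    have a1 : z ∈ Ico (0 : ℤ) n := hF.sub hz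
    have a2 : z' ∈ Ico (0 : ℤ) n := hF.sub hz'
    rw [mem_Ico] at a1 a2
    have : |z - z'| ≤ (n : ℤ) := by rw [abs_le]; omega
    exact_mod_cast this
  have hM : ∀ i l b, Nr U 1 (K + K) (MM n (E i) (bif b then ω i l else ω' i l)) := fun i l b => by
    obtain ⟨x, hx, x', hx', e1⟩ := hd (i, some (l, b)) z hz z' hz'
    have hv : (bif b then ω i l else ω' i l) ∈ W := by cases b; exacts [(hω i l).2, (hω i l).1]
    obtain ⟨a, ha, a1⟩ := b3 _ hv x hx
    obtain ⟨a', ha', a2⟩ := b3 _ hv x' hx'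
    rw [show E i = x - x' from e1, MM_sub]
    exact nr_pair ha ha' a1 a2
  set F : V k := ∑ i, (u i / s) • gR k (E i) with hFd
  have hF1 : ‖F‖ ≤ J * (2 * K * n) := by
    refine (norm_sum_le _ _).trans ((sum_le_card_nsmul _ _ (2 * K * n : ℝ) fun i _ => ?_).trans
      (by simp))
    have a1 : (y i : ℝ) < s := by exact_mod_cast (hys i).1
    have a2 : (y' i : ℝ) < s := by exact_mod_cast (hys i).2
    have a3 : |u i / s| ≤ 1 := by
      rw [abs_div, abs_of_pos hs, div_le_one hs, abs_le]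
      constructor <;> simp only [hu] <;> linarith [Nat.cast_nonneg (α := ℝ) (y i),
        Nat.cast_nonneg (α := ℝ) (y' i)]
    rw [norm_smul]
    exact (mul_le_of_le_one_left (norm_nonneg _) a3).trans (hg i)
  have hF2 := htv F (by push_cast; nlinarith) fun l => by
    have a1 := Nr.sum univ fun i _ => (hM i l true).sub (hM i l false)
    rw [card_univ, Fintype.card_fin] at a1
    refine a1.near ?_
    have e1 : ((t l : ℝ) / n) • F - ∑ i, (MM n (E i) (ω i l) - MM n (E i) (ω' i l)) =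
        ∑ i, ((((y i : ℝ) / s * t l - (y' i : ℝ) / s * t l -
          (((ω i l).1 - (ω' i l).1 : ℤ) : ℝ)) / n) • gR k (E i) -
          ((((E i).1 : ℝ) - c i * (z - z')) / n) • (gR k (ω i l) - gR k (ω' i l))) -
        (((z : ℝ) - z') / n) • ∑ i, c i • (gR k (ω i l) - gR k (ω' i l)) := by
      rw [hFd, smul_sum, smul_sum, ← sum_sub_distrib, ← sum_sub_distrib]
      refine sum_congr rfl fun i _ => ?_
      simp only [MM, hu, Int.cast_sub]
      match_scalars <;> ring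
    have a2 : ‖(((z : ℝ) - z') / n) • ∑ i, c i • (gR k (ω i l) - gR k (ω' i l))‖ ≤ 1 := by
      rw [norm_smul, Real.norm_eq_abs, abs_div, Nat.abs_cast]
      exact mul_le_one₀ ((div_le_one (by linarith)).2 hzz) (norm_nonneg _) (hp l)
    simp only [cond_true, cond_false]
    rw [e1]
    refine (add_le_add ((norm_sub_le _ _).trans (add_le_add ((norm_sum_le _ _).trans
      (sum_le_card_nsmul _ _ (1 * (2 * K) + 2 * (2 * K) : ℝ) fun i _ => (norm_sub_le _ _).trans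
        (add_le_add (small (by linarith) (by rw [hfl]; exact fl _ _) (hg i))
          (small (by linarith) (hζ i) ((norm_sub_le _ _).trans ?_))))) a2)) le_rfl).trans ?_
    · linarith [hW.pb _ (hω i l).1, hW.pb _ (hω i l).2]
    · simp only [card_univ, Fintype.card_fin, nsmul_eq_mul]
      linarith
  have e2 : ∑ i, (‖u‖⁻¹ • u) i • (ctx Γ n K).g (d (c i) z - d (c i) z') = (s / ‖u‖) • F := by
    rw [hFd, smul_sum]
    refine sum_congr rfl fun i _ => ?_
    rw [smul_smul, Pi.smul_apply, smul_eq_mul]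
    congr 1
    field_simp
  rw [lc_cmb, e2, norm_smul, Real.norm_of_nonneg (by positivity)]
  push_cast at hF2
  have h3 : ‖F‖ ≤ 73 * (J * K) ^ 2 * L := by
    have : J * K * L ≤ (J * K) ^ 2 * L := by gcongr; nlinarith
    nlinarith
  calc _ ≤ s * (73 * (J * K) ^ 2 * L) := by gcongr; exact div_le_self hs.le hu1
    _ = _ := by ring

end Pool.Agent.MP_5168f5_an.H95F
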