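import Pool.Agent.MP_5168f5_an.H95F.Spec

/-! The wide vectors lie near the line of the slope. -/

namespace Pool.Agent.MP_5168f5_an.H95F

open H17S Finset

namespace FINA

variable {k : ℕ}

theorem dev {γ : V k} {ν : ℝ} {σ σ' : D k}
    (h : ‖gR k σ - (σ.1 : ℝ) • γ‖ ≤ ν) (h' : ‖gR k σ' - (σ'.1 : ℝ) • γ‖ ≤ ν) :
    ‖gR k (σ - σ') - ((σ - σ').1 : ℝ) • γ‖ ≤ 2 * ν := by
  have e : gR k (σ - σ') - ((σ - σ').1 : ℝ) • γ =
      (gR k σ - (σ.1 : ℝ) • γ) - (gR k σ' - (σ'.1 : ℝ) • γ) := by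
    simp only [map_sub, Prod.fst_sub, Int.cast_sub, sub_smul]
    abel
  rw [e]
  exact (norm_sub_le _ _).trans (by linarith)

theorem close {n K : ℕ} (hn : 1 ≤ n) {γ : V k} {ν : ℝ} {d v : D k} (hv : |v.1| ≤ K * n)
    (h : ‖gR k d - (d.1 : ℝ) • γ‖ ≤ ν) :
    ‖((d.1 : ℝ) / n) • (gR k v + (v.1 : ℝ) • γ) - MM n d v‖ ≤ K * ν := by
  have e : ((d.1 : ℝ) / n) • (gR k v + (v.1 : ℝ) • γ) - MM n d v =
      -(((v.1 : ℝ) / n) • (gR k d - (d.1 : ℝ) • γ)) := by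
    unfold MM
    module
  have hn' : (0 : ℝ) < n := by exact_mod_cast hn
  have hv' : |(v.1 : ℝ)| ≤ K * n := by exact_mod_cast hv
  rw [e, norm_neg, norm_smul, Real.norm_eq_abs, abs_div, abs_of_pos hn']
  exact mul_le_mul ((div_le_iff₀ hn').2 hv') h (norm_nonneg _) (Nat.cast_nonneg _)

end FINA

theorem rowFIN : SFin1 := by
  intro hM k U Γ S W n K q b A L₀ L e B ν γ hX hW hL hq L1 L0 hν hγ hA hS hS' hfin v hv
  have hn : 1 ≤ n := hX.hn
  have hK : 16 ≤ K := hX.hK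
  have hn' : (0 : ℝ) < n := by exact_mod_cast hn
  have hK' : (16 : ℝ) ≤ K := by exact_mod_cast hK
  have hB : 0 ≤ B := (norm_nonneg _).trans hγ
  have hA' : (1 : ℝ) ≤ A := by nlinarith
  have hA1 : 1 ≤ A := by exact_mod_cast hA'
  obtain ⟨N, hN, hN1, hN2⟩ := hW.nb v hv
  obtain ⟨N', hN', hc, hd⟩ := hM _ _ (ctx Γ n K) hX b N S hN hN1 hS fun σ hσ => (hS' σ hσ).1
  have hc' : n ≤ K ^ (b + 3) * (N'.image Prod.fst).card := hc
  by_contra hbig
  have hv1 : |(v.1 : ℝ)| ≤ K * n := by exact_mod_cast hW.rb v hv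
  have hup : ‖gR k v + (v.1 : ℝ) • γ‖ ≤ A * n := by
    refine (norm_add_le _ _).trans ?_
    rw [norm_smul, Real.norm_eq_abs]
    have h1 := hW.pb v hv
    have h2 : |(v.1 : ℝ)| * ‖γ‖ ≤ K * n * B :=
      mul_le_mul hv1 hγ (norm_nonneg _) (by positivity)
    nlinarith
  have hT := hL 1 hq A _ (2 * K + K * (2 * ν)) L (N'.image Prod.fst) hA1 (by nlinarith) L1 L0
    (not_le.1 hbig).le hup (by
      intro t ht
      obtain ⟨x, hx, rfl⟩ := Finset.mem_image.1 ht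
      have h1 : |x.1| ≤ n := hX.zb x (hN (hN' hx))
      have h2 : (1 : ℤ) ≤ A := by exact_mod_cast hA1
      nlinarith [Int.natCast_nonneg n]) (by
      intro t ht t' ht'
      obtain ⟨x, hx, rfl⟩ := Finset.mem_image.1 ht
      obtain ⟨x', hx', rfl⟩ := Finset.mem_image.1 ht'
      obtain ⟨a, ha, h1⟩ := hN2 x (hN' hx)
      obtain ⟨a', ha', h2⟩ := hN2 x' (hN' hx')
      obtain ⟨σ, hσ, σ', hσ', e1⟩ := hd x hx x' hx'
      have h3 := FINA.dev (hS' σ hσ).2 (hS' σ' hσ').2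
      rw [← e1] at h3
      have h4 := FINA.close hn (hW.rb v hv) h3
      rw [MM_sub, Prod.fst_sub, Int.cast_sub] at h4
      exact (nr_pair ha ha' h1 h2).near (by linarith))
  have hLe : 0 < L ^ e := Real.rpow_pos_of_pos (by linarith) e
  rw [Real.rpow_neg (by linarith), ← div_eq_mul_inv, ← mul_div_assoc, le_div_iff₀ hLe] at hT
  have h5 : (n : ℝ) ≤ K ^ (b + 3) * (N'.image Prod.fst).card := by exact_mod_cast hc'
  have h6 : (0 : ℝ) < K ^ (b + 3) := by positivity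
  have h7 := mul_le_mul_of_nonneg_right h5 hLe.le
  have h8 := mul_le_mul_of_nonneg_left hT h6.le
  have h9 := mul_lt_mul_of_pos_left hfin hn'
  nlinarith

end Pool.Agent.MP_5168f5_an.H95F
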