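import Pool.Agent.MP_5168f5_an.H95F.Spec

/-! Approximately additive bounded functions on the unit interval are approximately linear. -/

namespace Pool.Agent.MP_5168f5_an.H95F

theorem rowHU : SHU := by
  intro F _ _ τ B σ hB hσ
  have hs : 0 ≤ σ := (norm_nonneg _).trans (hσ 0 0 le_rfl le_rfl (by norm_num))
  let S : Set ℝ := (fun c : ℝ => ‖τ c - c • τ 1‖) '' Set.Icc 0 1
  have hb : BddAbove S := ⟨B + ‖τ 1‖, by
    rintro _ ⟨c, hc, rfl⟩
    refine (norm_sub_le _ _).trans (add_le_add (hB c hc) ?_)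
    rw [norm_smul, Real.norm_of_nonneg hc.1]
    exact mul_le_of_le_one_left (norm_nonneg _) hc.2⟩
  have hM : ∀ c ∈ Set.Icc (0 : ℝ) 1, ‖τ c - c • τ 1‖ ≤ sSup S := fun c hc =>
    le_csSup hb ⟨c, hc, rfl⟩
  have h1 : ∀ c : ℝ, 0 ≤ c → c ≤ 1 / 2 → ‖τ c - c • τ 1‖ ≤ (sSup S + σ) / 2 := fun c h0 h1 => by
    have e : (2 : ℝ) • (τ c - c • τ 1) =
        (τ (c + c) - (c + c) • τ 1) - (τ (c + c) - τ c - τ c) := by module
    have := (norm_sub_le _ _).trans (add_le_add (hM (c + c) ⟨by linarith, by linarith⟩)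
      (hσ c c h0 h0 (by linarith)))
    rw [← e, norm_smul, Real.norm_of_nonneg zero_le_two] at this
    linarith
  have h2 : ∀ c ∈ Set.Icc (0 : ℝ) 1, ‖τ c - c • τ 1‖ ≤ (sSup S + σ) / 2 + σ := fun c hc => by
    rcases le_total c (1 / 2) with h | h
    · linarith [h1 c hc.1 h]
    · have e : τ c - c • τ 1 = -(τ (1 - c) - (1 - c) • τ 1) - (τ 1 - τ c - τ (1 - c)) := by module
      have h3 := hσ c (1 - c) hc.1 (by linarith [hc.2]) (by linarith)
      rw [add_sub_cancel] at h3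
      rw [e]
      refine (norm_sub_le _ _).trans (add_le_add ?_ h3)
      rw [norm_neg]
      exact h1 _ (by linarith [hc.2]) (by linarith)
  have h3 : sSup S ≤ (sSup S + σ) / 2 + σ :=
    csSup_le ⟨_, 0, ⟨le_rfl, zero_le_one⟩, rfl⟩ (by rintro _ ⟨c, hc, rfl⟩; exact h2 c hc)
  exact fun c hc => (hM c hc).trans (by linarith)

end Pool.Agent.MP_5168f5_an.H95F
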