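import Pool.Agent.MP_5168f5_an.H95F.Spec

/-! Linearity of the families. -/

namespace Pool.Agent.MP_5168f5_an.H95F

open H17S Finset

theorem rowLIN : SLin := by
  intro hA hB hR G E _ _ _ X ok J a x h3 h10 x0 x1 hd c hc
  classical
  have K1 : 1 ≤ X.K := le_trans (by norm_num) ok.hK
  have n0 : (0 : ℝ) ≤ 2 * X.K * X.n := by positivity
  obtain ⟨b1, b2⟩ := hB G E X ok
  have triv : ∀ J' : ℕ, 3 * J' ≤ a → ∀ c l : Fin J' → ℝ, (∀ i, c i ∈ Set.Icc (0 : ℝ) 1) →
      X.Sm (a * 4 ^ 0) (cmb c l) (2 * X.K * X.n * (J' * ‖l‖)) ∧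
        (cmb c l).support.card ≤ a * 2 ^ 0 := fun J' h c l hc =>
    ⟨(b1 J' c l hc).mono K1 (by omega) le_rfl, (card_support_cmb c l).trans (by omega)⟩
  refine (hR (fun j f μ => X.Sm (a * 4 ^ j) f (2 * X.K * X.n * μ) ∧ f.support.card ≤ a * 2 ^ j)
    J x ⟨?_, ?_, ?_, ?_, ?_, ?_, ?_⟩ x0 x1 c hc).1
  · rintro j j' f μ μ' ⟨h1, h2⟩ hj hμ
    exact ⟨h1.mono K1 (Nat.mul_le_mul_left _ (Nat.pow_le_pow_right (by norm_num) hj))
      (mul_le_mul_of_nonneg_left hμ n0),
      h2.trans (Nat.mul_le_mul_left _ (Nat.pow_le_pow_right (by norm_num) hj))⟩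
  · rintro j f f' μ μ' ⟨h1, h2⟩ ⟨h1', h2'⟩
    have e1 : a * 2 ^ j ≤ a * 4 ^ j := Nat.mul_le_mul_left _ (Nat.pow_le_pow_left (by norm_num) j)
    have e2 : 0 < a * 4 ^ j := Nat.mul_pos (by omega) (by positivity)
    refine ⟨(hA G E X ok _ _ _ f f' _ _ h1 h1' h2).mono K1 ?_ (mul_add _ _ _).ge, ?_⟩
    · rw [pow_succ, ← mul_assoc]; omega
    · refine (card_le_card Finsupp.support_add).trans ((card_union_le _ _).trans ?_)
      rw [pow_succ, ← mul_assoc]; omega
  · rintro j f μ t ⟨h1, h2⟩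
    exact ⟨(h1.smul K1 t).mono K1 le_rfl (le_of_eq (by ring)),
      (card_le_card Finsupp.support_smul).trans h2⟩
  · intro c hc t
    have := triv 1 (by omega) (fun _ => c) (fun _ => t) fun _ => hc
    simpa [cmb] using this
  · exact fun J' h => triv J' (by omega)
  · intro c c' h1 h2 h
    refine ⟨(b2 c c' h1 h2 h).mono K1 (by omega) (mul_zero _).ge, ?_⟩
    have s : ∀ y : ℝ, (Finsupp.single y (1 : ℝ)).support.card ≤ 1 := fun y =>
      (card_le_card Finsupp.support_single_subset).trans (card_singleton y).le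
    have e1 := (card_le_card (Finsupp.support_sub (f := Finsupp.single (c + c') (1 : ℝ))
      (g := Finsupp.single c 1))).trans (card_union_le _ _)
    have e2 := (card_le_card (Finsupp.support_sub
      (f := Finsupp.single (c + c') (1 : ℝ) - Finsupp.single c 1)
      (g := Finsupp.single c' 1))).trans (card_union_le _ _)
    have := s (c + c')
    have := s c
    have := s c'
    omega
  · intro c hc
    obtain ⟨l, l1, l2⟩ := hd c hc
    exact ⟨l, l1, l2.mono K1 (by omega) le_rfl, (card_support_cmb c l).trans (by omega)⟩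

end Pool.Agent.MP_5168f5_an.H95F
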