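import Pool.Agent.MP_5168f5_an.H95F.Spec

/-! Segments: longer vectors and longer ranges. -/

namespace Pool.Agent.MP_5168f5_an.H95F

open H17S Finset

namespace LINE2A

theorem cls {A n t : ℤ} (hA : 1 ≤ A) (hn : 1 ≤ n) (ht : |t| ≤ A * n) :
    A * (t + A * n) / n ∈ Finset.Icc (0 : ℤ) (2 * A ^ 2) := by
  obtain ⟨h1, h2⟩ := abs_le.1 ht
  refine Finset.mem_Icc.2 ⟨Int.ediv_nonneg (mul_nonneg (by omega) (by linarith)) (by omega), ?_⟩
  refine Int.ediv_le_of_le_mul (by omega) ?_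
  nlinarith

theorem diff {A n t t' : ℤ} (h : A * (t + A * n) / n = A * (t' + A * n) / n) :
    A * (t + A * n) % n - A * (t' + A * n) % n = A * (t - t') := by
  rw [Int.emod_def, Int.emod_def, h]
  ring

end LINE2A

theorem rowLINE2 : SLine2 := by
  intro k U n q L₀ e hn hL q' hq A v μ L T hA hμ hL1 hL0 hv1 hv2 hT hNr
  have hA' : (1 : ℤ) ≤ A := by exact_mod_cast hA
  have hn' : (1 : ℤ) ≤ n := by exact_mod_cast hn
  have hAR : (1 : ℝ) ≤ A := by exact_mod_cast hA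
  have hA0 : (0 : ℝ) < A := by linarith
  obtain ⟨T', h1, h2, h3⟩ := pig1 T (fun t => (A : ℤ) * (t + A * n) / n)
    (Finset.Icc (0 : ℤ) (2 * (A : ℤ) ^ 2)) fun t ht => LINE2A.cls hA' hn' (hT t ht)
  have hinj : Set.InjOn (fun t : ℤ => (A : ℤ) * (t + A * n) % n) T' := by
    intro t ht t' ht' h
    have h4 := LINE2A.diff (h3 t ht t' ht')
    have h5 : (A : ℤ) * (t - t') = 0 := by
      rw [← h4]
      exact sub_eq_zero.2 h
    rcases mul_eq_zero.1 h5 with h6 | h6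
    · omega
    · exact sub_eq_zero.1 h6
  have hnv : ‖(A : ℝ)⁻¹ • v‖ = ‖v‖ / A := by
    rw [norm_smul, norm_inv, Real.norm_of_nonneg hA0.le, div_eq_inv_mul]
  have key := hL q' hq ((A : ℝ)⁻¹ • v) μ L (T'.image fun t : ℤ => (A : ℤ) * (t + A * n) % n) hμ hL0
    (by rw [hnv, le_div_iff₀ hA0]; linarith) (by rw [hnv, div_le_iff₀ hA0]; linarith)
    (by
      intro x hx
      obtain ⟨t, -, rfl⟩ := Finset.mem_image.1 hx
      exact Finset.mem_Ico.2 ⟨Int.emod_nonneg _ (by omega), Int.emod_lt_of_pos _ (by omega)⟩)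
    (by
      intro x hx x' hx'
      obtain ⟨t, ht, rfl⟩ := Finset.mem_image.1 hx
      obtain ⟨t', ht', rfl⟩ := Finset.mem_image.1 hx'
      have h4 := congrArg (Int.cast : ℤ → ℝ) (LINE2A.diff (h3 t ht t' ht'))
      rw [Int.cast_sub] at h4
      rw [h4, smul_smul]
      convert hNr t (h1 ht) t' (h1 ht') using 2
      push_cast
      field_simp)
  rw [Finset.card_image_of_injOn hinj] at key
  have hc : ((Finset.Icc (0 : ℤ) (2 * (A : ℤ) ^ 2)).card : ℝ) ≤ 3 * A ^ 2 := by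
    have e1 : (Finset.Icc (0 : ℤ) (2 * (A : ℤ) ^ 2)).card = 2 * A ^ 2 + 1 := by
      rw [Int.card_Icc]
      have e2 : (2 * (A : ℤ) ^ 2 + 1 - 0) = ((2 * A ^ 2 + 1 : ℕ) : ℤ) := by push_cast; ring
      rw [e2, Int.toNat_natCast]
    rw [e1]
    push_cast
    nlinarith
  have h2' : (T.card : ℝ) ≤ (Finset.Icc (0 : ℤ) (2 * (A : ℤ) ^ 2)).card * T'.card := by
    exact_mod_cast h2
  exact h2'.trans (mul_le_mul hc key (Nat.cast_nonneg _) (by positivity))

end Pool.Agent.MP_5168f5_an.H95F
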