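import Pool.Agent.MP_5168f5_an.H95F.Spec

/-! Matching the differences of a dense part of `N` with differences of `S`. -/

namespace Pool.Agent.MP_5168f5_an.H95F

open H17S Finset

theorem rowMATCH : SMatch := by
  intro G E _ _ _ X hX b N S hN h1 h2 h3
  classical
  have hn := hX.hn
  have hK := hX.hK
  obtain ⟨g0, hg0⟩ : X.Γ.Nonempty := by
    rcases X.Γ.eq_empty_or_nonempty with h | h
    · have := hX.wide
      rw [h] at this
      simp at this
      omega
    · exact h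
  obtain ⟨s, hs⟩ := shift (N.image X.ζ) id (S.image X.ζ)
    (Finset.Icc (-(3 * (X.n : ℤ))) (3 * X.n)) (by
      intro z hz ρ hρ
      obtain ⟨x, hx, rfl⟩ := Finset.mem_image.1 hz
      obtain ⟨σ, hσ, rfl⟩ := Finset.mem_image.1 hρ
      obtain ⟨y, hy, y', hy', rfl⟩ := h3 σ hσ
      have a1 := abs_le.1 (hX.zb x (hN hx))
      have a2 := abs_le.1 (hX.zb y hy)
      have a3 := abs_le.1 (hX.zb y' hy')
      rw [Finset.mem_Icc, map_sub, id]
      constructor <;> omega)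
  set Z' := (N.image X.ζ).filter fun z => id z + s ∈ S.image X.ζ with hZ'
  have key : ∀ α : ℤ, ∃ x y y' : G, α ∈ Z' →
      x ∈ N ∧ X.ζ x = α ∧ y ∈ X.Γ ∧ y' ∈ X.Γ ∧ y - y' ∈ S ∧ X.ζ (y - y') = α + s := by
    intro α
    by_cases hα : α ∈ Z'
    · obtain ⟨hα1, hα2⟩ := Finset.mem_filter.1 hα
      obtain ⟨x, hx, hx'⟩ := Finset.mem_image.1 hα1
      obtain ⟨σ, hσ, hσ'⟩ := Finset.mem_image.1 hα2
      obtain ⟨y, hy, y', hy', rfl⟩ := h3 σ hσ
      exact ⟨x, y, y', fun _ => ⟨hx, hx', hy, hy', hσ, hσ'⟩⟩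
    · exact ⟨0, 0, 0, fun h => absurd h hα⟩
  choose x y y' hxy using key
  obtain ⟨T, hT, hT'⟩ := hX.few ((-s - X.ζ g0 : ℤ) : ℝ)
  obtain ⟨Z'', hZ1, hZ2, hZ3⟩ := pig1 Z' (fun α => x α + y' α - y α - g0) T (by
    intro α hα
    obtain ⟨b1, b2, b3, b4, b5, b6⟩ := hxy α hα
    refine hT' _ (hN b1) _ b4 _ b3 _ hg0 ?_
    have e : X.ζ (x α + y' α - y α - g0) = -s - X.ζ g0 := by
      rw [map_sub] at b6
      rw [map_sub, map_sub, map_add, b2]
      linarith
    rw [e, sub_self, abs_zero]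
    norm_num)
  refine ⟨Z''.image x, ?_, ?_, ?_⟩
  · intro a ha
    obtain ⟨α, hα, rfl⟩ := Finset.mem_image.1 ha
    exact (hxy α (hZ1 hα)).1
  · have e : (Z''.image x).image X.ζ = Z'' := by
      rw [Finset.image_image]
      conv_rhs => rw [← Finset.image_id (s := Z'')]
      exact Finset.image_congr fun α hα => (hxy α (hZ1 hα)).2.1
    rw [e]
    have hc : (Finset.Icc (-(3 * (X.n : ℤ))) (3 * X.n)).card ≤ X.K * X.n := by
      rw [Int.card_Icc]
      have : 16 * X.n ≤ X.K * X.n := Nat.mul_le_mul_right _ hK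
      omega
    refine Nat.le_of_mul_le_mul_right (c := X.n) ?_ hn
    calc X.n * X.n ≤ (X.K * (N.image X.ζ).card) * (X.K ^ b * (S.image X.ζ).card) :=
          Nat.mul_le_mul h1 h2
      _ = X.K ^ (b + 1) * ((N.image X.ζ).card * (S.image X.ζ).card) := by ring
      _ ≤ X.K ^ (b + 1) * ((X.K * X.n) * (X.K * Z''.card)) := by
          refine Nat.mul_le_mul_left _ (hs.trans (Nat.mul_le_mul hc ?_))
          exact hZ2.trans (Nat.mul_le_mul_right _ hT)
      _ = X.K ^ (b + 3) * Z''.card * X.n := by ring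
  · intro a ha a' ha'
    obtain ⟨α, hα, rfl⟩ := Finset.mem_image.1 ha
    obtain ⟨β, hβ, rfl⟩ := Finset.mem_image.1 ha'
    refine ⟨_, (hxy α (hZ1 hα)).2.2.2.2.1, _, (hxy β (hZ1 hβ)).2.2.2.2.1, ?_⟩
    have e := hZ3 α hα β hβ
    have e' : x α - x β - (y α - y' α - (y β - y' β)) =
        (x α + y' α - y α - g0) - (x β + y' β - y β - g0) := by abel
    rw [← sub_eq_zero, e', e, sub_self]

end Pool.Agent.MP_5168f5_an.H95F
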