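import Pool.Agent.MP_5168f5_an.H95F.Spec

/-! Choice of the constants. -/

namespace Pool.Agent.MP_5168f5_an.H95F

namespace NUMA

/-- A property of `n, K` that holds for large `n` and `K` below a small power of `n`. -/
def Ev (p : ℕ → ℕ → Prop) : Prop := ∃ κ₀ : ℝ, 0 < κ₀ ∧ ∃ n₀ : ℕ, ∀ (n K : ℕ) (κ : ℝ), n₀ ≤ n →
  κ ≤ κ₀ → (K : ℝ) ≤ (n : ℝ) ^ (15 * κ) → p n K

theorem Ev.and {p q : ℕ → ℕ → Prop} (hp : Ev p) (hq : Ev q) : Ev fun n K => p n K ∧ q n K := by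
  obtain ⟨a, ha, n₁, h₁⟩ := hp
  obtain ⟨b, hb, n₂, h₂⟩ := hq
  refine ⟨min a b, lt_min ha hb, max n₁ n₂, fun n K κ hn hκ hK => ⟨?_, ?_⟩⟩
  · exact h₁ n K κ (le_trans (le_max_left _ _) hn) (le_trans hκ (min_le_left _ _)) hK
  · exact h₂ n K κ (le_trans (le_max_right _ _) hn) (le_trans hκ (min_le_right _ _)) hK

theorem ev (M : ℝ) (C : ℕ) (ε : ℝ) (hε : 0 < ε) :
    Ev fun n K => M * (K : ℝ) ^ C < (n : ℝ) ^ ε := by
  have h1 : Filter.Tendsto (fun n : ℕ => (n : ℝ) ^ (ε / 2)) Filter.atTop Filter.atTop :=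
    (tendsto_rpow_atTop (by positivity)).comp tendsto_natCast_atTop_atTop
  obtain ⟨n₀, hn₀⟩ := Filter.eventually_atTop.1 (h1.eventually_gt_atTop |M|)
  refine ⟨ε / (30 * (C + 1)), by positivity, max n₀ 1, fun n K κ hn hκ hK => ?_⟩
  have hn1 : (1 : ℝ) ≤ n := by exact_mod_cast le_trans (le_max_right _ _) hn
  have hM := hn₀ n (le_trans (le_max_left _ _) hn)
  have hC : (0 : ℝ) ≤ C := Nat.cast_nonneg C
  have hK2 : (K : ℝ) ^ C ≤ (n : ℝ) ^ (ε / 2) := by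
    have h2 : (K : ℝ) ≤ (n : ℝ) ^ (ε / (2 * (C + 1))) := by
      refine le_trans hK (Real.rpow_le_rpow_of_exponent_le hn1 ?_)
      have : ε / (2 * (C + 1)) = 15 * (ε / (30 * (C + 1))) := by field_simp; ring
      rw [this]; linarith
    calc (K : ℝ) ^ C ≤ ((n : ℝ) ^ (ε / (2 * (C + 1)))) ^ C :=
          pow_le_pow_left₀ (Nat.cast_nonneg K) h2 C
      _ = (n : ℝ) ^ (ε / (2 * (C + 1)) * C) := by
          rw [Real.rpow_mul (by linarith), Real.rpow_natCast]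
      _ ≤ (n : ℝ) ^ (ε / 2) := by
          refine Real.rpow_le_rpow_of_exponent_le hn1 ?_
          rw [div_mul_eq_mul_div, div_le_div_iff₀ (by positivity) (by positivity)]
          nlinarith
  have hp : 0 < (n : ℝ) ^ (ε / 2) := Real.rpow_pos_of_pos (by linarith) _
  calc M * (K : ℝ) ^ C ≤ |M| * (K : ℝ) ^ C :=
        mul_le_mul_of_nonneg_right (le_abs_self M) (by positivity)
    _ ≤ |M| * (n : ℝ) ^ (ε / 2) := mul_le_mul_of_nonneg_left hK2 (abs_nonneg M)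
    _ < (n : ℝ) ^ (ε / 2) * (n : ℝ) ^ (ε / 2) := mul_lt_mul_of_pos_right hM hp
    _ = (n : ℝ) ^ ε := by rw [← Real.rpow_add (by linarith)]; congr 1; ring

theorem tup (k m J : ℕ) (n K e : ℝ) (hn : 1 ≤ n) (hm : 4 * (k + 1 : ℝ) ≤ e * m)
    (h : (9 * J : ℝ) ^ k * (27 * (J : ℝ) ^ 2) ^ m * K ^ (k + 2 * m) < n) :
    (3 * (3 * J * K) * n : ℝ) ^ k * (3 * (3 * J * K) ^ 2 * (n ^ (1 / 4 : ℝ)) ^ (-e)) ^ m < 1 := by
  have hn0 : 0 < n := by linarith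
  have h1 : ((n ^ (1 / 4 : ℝ)) ^ (-e)) ^ m ≤ (n ^ (k + 1))⁻¹ := by
    rw [← Real.rpow_mul hn0.le, ← Real.rpow_natCast, ← Real.rpow_mul hn0.le,
      ← Real.rpow_natCast, ← Real.rpow_neg hn0.le]
    refine Real.rpow_le_rpow_of_exponent_le hn ?_
    push_cast
    nlinarith
  have h0 : 0 < ((n ^ (1 / 4 : ℝ)) ^ (-e)) ^ m := by positivity
  have e1 : (3 * (3 * J * K) * n : ℝ) ^ k * (3 * (3 * J * K) ^ 2 * (n ^ (1 / 4 : ℝ)) ^ (-e)) ^ m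
      = ((9 * J : ℝ) ^ k * (27 * (J : ℝ) ^ 2) ^ m * K ^ (k + 2 * m)) *
        (n ^ k * ((n ^ (1 / 4 : ℝ)) ^ (-e)) ^ m) := by
    have a1 : (3 * (3 * J * K) * n : ℝ) = (9 * J) * K * n := by ring
    have a2 : (3 * (3 * J * K) ^ 2 : ℝ) = (27 * (J : ℝ) ^ 2) * K ^ 2 := by ring
    rw [a1, a2, mul_pow, mul_pow, mul_pow _ ((n ^ (1 / 4 : ℝ)) ^ (-e)),
      mul_pow (27 * (J : ℝ) ^ 2), pow_add K, pow_mul K]
    ring
  rw [e1]
  have hp : 0 < n ^ k * ((n ^ (1 / 4 : ℝ)) ^ (-e)) ^ m := by positivity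
  calc _ < n * (n ^ k * ((n ^ (1 / 4 : ℝ)) ^ (-e)) ^ m) := mul_lt_mul_of_pos_right h hp
    _ ≤ n * (n ^ k * (n ^ (k + 1))⁻¹) := by gcongr
    _ = 1 := by field_simp; ring

theorem pair (a J n K b : ℕ) (hJ : J = 2 * a + 2) (hn : 1 ≤ n)
    (h : (3 * J) ^ a * K ^ (a + b) < n) :
    (3 * J * K * n) ^ a * K ^ b < (Nat.sqrt n + 1) ^ J := by
  have h1 : n ≤ (Nat.sqrt n + 1) ^ 2 := by
    have := Nat.lt_succ_sqrt n
    rw [pow_two]; exact this.le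
  have h2 : n ^ (a + 1) ≤ (Nat.sqrt n + 1) ^ J := by
    have : J = 2 * (a + 1) := by omega
    rw [this, pow_mul]
    exact Nat.pow_le_pow_left h1 _
  have e1 : (3 * J * K * n) ^ a * K ^ b = ((3 * J) ^ a * K ^ (a + b)) * n ^ a := by
    rw [mul_pow, mul_pow (3 * J), pow_add]; ring
  rw [e1]
  calc _ < n * n ^ a := Nat.mul_lt_mul_of_pos_right h (Nat.pow_pos (by omega))
    _ = n ^ (a + 1) := by ring
    _ ≤ _ := h2

theorem sq_le (n : ℕ) (hn : 1 ≤ n) : ((Nat.sqrt n + 1 : ℕ) : ℝ) ≤ 2 * (n : ℝ) ^ (1 / 2 : ℝ) := by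
  have hn1 : (1 : ℝ) ≤ n := by exact_mod_cast hn
  have h1 : (1 : ℝ) ≤ (n : ℝ) ^ (1 / 2 : ℝ) := Real.one_le_rpow hn1 (by norm_num)
  have h2 : ((Nat.sqrt n : ℕ) : ℝ) ≤ (n : ℝ) ^ (1 / 2 : ℝ) := by
    rw [← Real.sqrt_eq_rpow]
    exact Real.nat_sqrt_le_real_sqrt
  push_cast
  linarith

theorem acc (J : ℕ) (n K s θ : ℝ) (hn : 1 ≤ n) (hK : 0 ≤ K) (hθ : θ = 1 / (8 * 3 ^ J))
    (hs : s ≤ 2 * n ^ (1 / 2 : ℝ)) (h : (73 * (J : ℝ) ^ 2) * K ^ 1 < n ^ (1 / 8 : ℝ)) :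
    73 * s * (J : ℝ) ^ 2 * K ^ 2 * n ^ (1 / 4 : ℝ) ≤ 2 * K * n * (n ^ (-θ)) ^ 3 ^ J := by
  have hn0 : 0 < n := by linarith
  have h1 : (n ^ (-θ)) ^ 3 ^ J = n ^ (-(1 / 8) : ℝ) := by
    rw [← Real.rpow_natCast, ← Real.rpow_mul hn0.le, hθ]
    congr 1
    push_cast
    field_simp
  have h2 : n * n ^ (-(1 / 8) : ℝ) = n ^ (1 / 8 : ℝ) * (n ^ (1 / 2 : ℝ) * n ^ (1 / 4 : ℝ)) := by
    rw [← Real.rpow_add hn0, ← Real.rpow_add hn0]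
    nth_rewrite 1 [← Real.rpow_one n]
    rw [← Real.rpow_add hn0]
    norm_num
  rw [h1, mul_assoc (2 * K) n, h2]
  have p1 : 0 < n ^ (1 / 2 : ℝ) := by positivity
  have p2 : 0 < n ^ (1 / 4 : ℝ) := by positivity
  rw [pow_one] at h
  calc 73 * s * (J : ℝ) ^ 2 * K ^ 2 * n ^ (1 / 4 : ℝ)
      ≤ 73 * (2 * n ^ (1 / 2 : ℝ)) * (J : ℝ) ^ 2 * K ^ 2 * n ^ (1 / 4 : ℝ) := by gcongr
    _ = 2 * K * ((73 * (J : ℝ) ^ 2 * K) * (n ^ (1 / 2 : ℝ) * n ^ (1 / 4 : ℝ))) := by ring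
    _ ≤ 2 * K * (n ^ (1 / 8 : ℝ) * (n ^ (1 / 2 : ℝ) * n ^ (1 / 4 : ℝ))) := by gcongr

theorem two (K : ℝ) (a : ℕ) (hK : 1 ≤ K) : K + K * K ^ (a + 2) ≤ 2 * K ^ (a + 3) := by
  have h1 : K ^ 1 ≤ K ^ (a + 3) := pow_le_pow_right₀ hK (by omega)
  have h2 : K * K ^ (a + 2) = K ^ (a + 3) := by ring
  rw [pow_one] at h1
  linarith

theorem fin (K R : ℝ) (a : ℕ) (hK : 1 ≤ K) (h : 12 * K ^ (4 * a + 13) < R) :
    3 * (K + K * K ^ (a + 2)) ^ 2 * K ^ (2 * a + 4 + 3) < R := by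
  have h1 := two K a hK
  have hK0 : 0 ≤ K := by linarith
  calc 3 * (K + K * K ^ (a + 2)) ^ 2 * K ^ (2 * a + 4 + 3)
      ≤ 3 * (2 * K ^ (a + 3)) ^ 2 * K ^ (2 * a + 4 + 3) := by gcongr
    _ = 12 * K ^ (4 * a + 13) := by ring
    _ < R := h

theorem out (K n θ : ℝ) (a J : ℕ) (hK : 1 ≤ K) (hn : 1 ≤ n) (hθ : θ ≤ 1)
    (h : (2 * (72 * J + 12) : ℝ) * K ^ (2 * a + 7) < n ^ (θ / 2)) :
    (K + K * K ^ (a + 2)) * (2 * K + K * (2 *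
      (2 * K * n * ((18 * J + 2) * n ^ (-θ)) + K ^ (a + 3)))) * n ^ (θ / 4)
      ≤ n * n ^ (-(θ / 4)) := by
  have hn0 : 0 < n := by linarith
  have hK0 : 0 ≤ K := by linarith
  have h1 := two K a hK
  have hy : 1 ≤ n * n ^ (-θ) := by
    have : n * n ^ (-θ) = n ^ (1 - θ) := by
      rw [sub_eq_add_neg, Real.rpow_add hn0, Real.rpow_one]
    rw [this]
    exact Real.one_le_rpow hn (by linarith)
  have hJ : (0 : ℝ) ≤ J := Nat.cast_nonneg J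
  have k1 : K ≤ K ^ (a + 4) := by
    have : K ^ 1 ≤ K ^ (a + 4) := pow_le_pow_right₀ hK (by omega)
    rwa [pow_one] at this
  have k2 : K ^ 2 ≤ K ^ (a + 4) := pow_le_pow_right₀ hK (by omega)
  have k0 : 0 ≤ K ^ (a + 4) := by positivity
  have h2 : 2 * K + K * (2 * (2 * K * n * ((18 * J + 2) * n ^ (-θ)) + K ^ (a + 3)))
      ≤ (72 * J + 12) * K ^ (a + 4) * (n * n ^ (-θ)) := by
    have e1 : 2 * K + K * (2 * (2 * K * n * ((18 * J + 2) * n ^ (-θ)) + K ^ (a + 3)))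
        = 2 * K + (72 * J + 8) * K ^ 2 * (n * n ^ (-θ)) + 2 * K ^ (a + 4) := by ring
    have b1 : (72 * J + 8) * K ^ 2 * (n * n ^ (-θ)) ≤ (72 * J + 8) * K ^ (a + 4) * (n * n ^ (-θ)) := by
      gcongr
    have b2 : K ^ (a + 4) ≤ K ^ (a + 4) * (n * n ^ (-θ)) := le_mul_of_one_le_right k0 hy
    have e2 : (72 * J + 12) * K ^ (a + 4) * (n * n ^ (-θ))
        = (72 * J + 8) * K ^ (a + 4) * (n * n ^ (-θ)) + 4 * (K ^ (a + 4) * (n * n ^ (-θ))) := by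
      ring
    rw [e1, e2]
    linarith
  have e3 : n ^ (θ / 2) * (n ^ (-θ) * n ^ (θ / 4)) = n ^ (-(θ / 4)) := by
    rw [← Real.rpow_add hn0, ← Real.rpow_add hn0]
    congr 1
    ring
  have p1 : 0 < n ^ (θ / 4) := by positivity
  have p2 : 0 < n ^ (-θ) := by positivity
  calc _ ≤ (2 * K ^ (a + 3)) * ((72 * J + 12) * K ^ (a + 4) * (n * n ^ (-θ))) * n ^ (θ / 4) := by
        gcongr
    _ = n * (((2 * (72 * J + 12) : ℝ) * K ^ (2 * a + 7)) * (n ^ (-θ) * n ^ (θ / 4))) := by ring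
    _ ≤ n * (n ^ (θ / 2) * (n ^ (-θ) * n ^ (θ / 4))) := by gcongr
    _ = n * n ^ (-(θ / 4)) := by rw [e3]

end NUMA

open NUMA in
theorem rowNUM : SNum := by
  intro k e he
  obtain ⟨m, hm⟩ : ∃ m : ℕ, 4 * (k + 1 : ℝ) ≤ e * m := by
    refine ⟨⌈4 * (k + 1 : ℝ) / e⌉₊, ?_⟩
    have := Nat.le_ceil (4 * (k + 1 : ℝ) / e)
    rw [div_le_iff₀ he] at this
    linarith
  obtain ⟨J, hJ⟩ : ∃ J : ℕ, J = 2 * (k * m) + 2 := ⟨_, rfl⟩
  obtain ⟨θ, hθ⟩ : ∃ θ : ℝ, θ = 1 / (8 * 3 ^ J) := ⟨_, rfl⟩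
  have hθ0 : 0 < θ := by rw [hθ]; positivity
  have hθ1 : θ ≤ 1 := by
    rw [hθ, div_le_one (by positivity)]
    have : (1 : ℝ) ≤ 3 ^ J := one_le_pow₀ (by norm_num)
    linarith
  obtain ⟨κ₀, hκ₀, n₀, H⟩ :=
    (ev ((9 * J : ℝ) ^ k * (27 * (J : ℝ) ^ 2) ^ m) (k + 2 * m) 1 one_pos).and
    ((ev ((3 * J : ℝ) ^ (k * m)) (k * m + 3 * m * J) 1 one_pos).and
    ((ev 2 0 θ hθ0).and
    ((ev (73 * (J : ℝ) ^ 2) 1 (1 / 8) (by norm_num)).and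
    ((ev 4 (ex m J) 1 one_pos).and
    ((ev 12 (4 * ex m J + 13) (θ / 4 * e) (by positivity)).and
    (ev (2 * (72 * J + 12)) (2 * ex m J + 7) (θ / 2) (by positivity)))))))
  refine ⟨m, J, max n₀ 1, θ / 4, min κ₀ (θ / 4), by positivity, lt_min hκ₀ (by positivity),
    by omega, fun n K hn hK hKn => ?_⟩
  obtain ⟨h1, h2, h3, h4, h5, h6, h7⟩ :=
    H n K _ (le_trans (le_max_left _ _) hn) (min_le_left _ _) hKn
  have hn1 : 1 ≤ n := le_trans (le_max_right _ _) hn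
  have hn1' : (1 : ℝ) ≤ n := by exact_mod_cast hn1
  have hn0 : (0 : ℝ) < n := by linarith
  have hK1 : (1 : ℝ) ≤ K := by exact_mod_cast le_trans (by norm_num) hK
  rw [Real.rpow_one] at h1 h2 h5
  refine ⟨Nat.sqrt n + 1, (n : ℝ) ^ (1 / 4 : ℝ), (n : ℝ) ^ (-θ), (n : ℝ) ^ (θ / 4),
    ⟨Real.one_le_rpow hn1' (by norm_num), ?_, tup k m J n K e hn1' hm h1, ?_, by positivity, ?_,
      acc J n K _ θ hn1' (by linarith) hθ (sq_le n hn1) h4, ?_,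
      Real.one_le_rpow hn1' (by positivity), ?_, ?_, out K n θ (ex m J) J hK1 hn1' hθ1 h7⟩⟩
  · refine Real.rpow_le_rpow_of_exponent_le hn1' (le_trans (min_le_right _ _) ?_)
    linarith
  · refine pair (k * m) J n K (3 * m * J) hJ hn1 ?_
    exact_mod_cast h2
  · rw [Real.rpow_neg hn0.le, one_div]
    rw [pow_zero, mul_one] at h3
    exact inv_anti₀ (by norm_num) h3.le
  · exact_mod_cast h5.le
  · exact Real.rpow_le_rpow_of_exponent_le hn1' (min_le_right _ _)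
  · refine fin K _ (ex m J) hK1 ?_
    rw [← Real.rpow_mul hn0.le]
    exact h6

end Pool.Agent.MP_5168f5_an.H95F
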