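import Pool.Agent.MP_5168f5_an.H95F.Spec

/-! From linear relations to approximate linearity. -/

namespace Pool.Agent.MP_5168f5_an.H95F

open H17S Finset

namespace RANKA

variable {P : ℕ → (ℝ →₀ ℝ) → ℝ → Prop} {J₀ : ℕ} {x : ℝ}

theorem norm_init {J : ℕ} (l : Fin (J + 1) → ℝ) : ‖fun i : Fin J => l i.castSucc‖ ≤ ‖l‖ :=
  (pi_norm_le_iff_of_nonneg (norm_nonneg _)).2 fun _ => norm_le_pi_norm l _

theorem norm_init_eq {J : ℕ} (l : Fin (J + 1) → ℝ) (hl : ‖l‖ = 1) (h : |l (Fin.last J)| < 1) :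
    ‖fun i : Fin J => l i.castSucc‖ = 1 := by
  refine le_antisymm (hl ▸ norm_init l) (not_lt.1 fun h1 => ?_)
  have : ‖l‖ < 1 := (pi_norm_lt_iff one_pos).2 fun i => by
    refine Fin.lastCases h (fun i => ?_) i
    exact (pi_norm_lt_iff one_pos).1 h1 i
  exact this.ne hl

theorem step (hP : Grd P J₀ x) {J q : ℕ} (c : Fin J → ℝ) {a : ℝ} (ha0 : 0 < a) (ha : a ≤ 1 / 2)
    (hI : ∀ l, ‖l‖ = 1 → ¬P (q + 2) (cmb c l) a) {t : ℝ} (ht : t ∈ Set.Icc (0 : ℝ) 1)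
    (l : Fin (J + 1) → ℝ) (hl : ‖l‖ = 1) (h : P q (cmb (Fin.snoc c t) l) (a ^ 3)) :
    ∃ τ : Fin J → ℝ, ‖τ‖ ≤ 2 / a ∧ P q (Finsupp.single t 1 - cmb c τ) (2 * a ^ 2) := by
  rw [cmb_succ] at h
  simp only [Fin.snoc_castSucc, Fin.snoc_last] at h
  have hn := norm_init l
  have hne := norm_init_eq l hl
  generalize (fun i : Fin J => l i.castSucc) = l' at h hn hne
  generalize l (Fin.last J) = s at h hne
  have hs : a / 2 ≤ |s| := by
    by_contra hs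
    rw [not_le] at hs
    have h1 := hP.add _ _ _ _ _ h (hP.mono _ q _ _ _ (hP.one t ht (-s)) (Nat.zero_le _) le_rfl)
    rw [Finsupp.single_neg, add_neg_cancel_right, abs_neg] at h1
    refine hI l' (hne (by linarith)) (hP.mono _ _ _ _ _ h1 (by omega) ?_)
    have : a ^ 3 ≤ a / 2 := by nlinarith [mul_pos ha0 ha0]
    linarith
  have s0 : 0 < |s| := by linarith
  have s1 : s ≠ 0 := abs_pos.1 s0
  have hi : |s⁻¹| ≤ 2 / a := by
    rw [abs_inv, inv_eq_one_div, div_le_div_iff₀ s0 ha0]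
    linarith
  refine ⟨(-s⁻¹) • l', ?_, ?_⟩
  · rw [norm_smul, Real.norm_eq_abs, abs_neg]
    exact (mul_le_of_le_one_right (abs_nonneg _) (hl ▸ hn)).trans hi
  · have h1 := hP.smul _ _ _ s⁻¹ h
    have e : s⁻¹ • (cmb c l' + Finsupp.single t s) = Finsupp.single t 1 - cmb c ((-s⁻¹) • l') := by
      rw [cmb_smul, smul_add, Finsupp.smul_single, smul_eq_mul, inv_mul_cancel₀ s1, neg_smul,
        sub_neg_eq_add, add_comm]
    rw [e] at h1
    refine hP.mono _ _ _ _ _ h1 le_rfl ((mul_le_mul_of_nonneg_right hi (by positivity)).trans ?_)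
    exact le_of_eq (by field_simp)

theorem small (hP : Grd P J₀ x) {J q : ℕ} (c : Fin J → ℝ) {a : ℝ} (ha0 : 0 < a)
    (hI : ∀ l, ‖l‖ = 1 → ¬P q (cmb c l) a) {δ : Fin J → ℝ} (h : P q (cmb c δ) (6 * a ^ 2)) :
    ‖δ‖ ≤ 6 * a := by
  by_contra hc
  rw [not_le] at hc
  have d0 : 0 < ‖δ‖ := by linarith
  have h1 := hP.smul _ _ _ ‖δ‖⁻¹ h
  rw [← cmb_smul, abs_of_pos (inv_pos.2 d0)] at h1
  refine hI (‖δ‖⁻¹ • δ) (by rw [norm_smul, norm_inv, norm_norm, inv_mul_cancel₀ d0.ne'])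
    (hP.mono _ _ _ _ _ h1 le_rfl ?_)
  rw [inv_mul_le_iff₀ d0]
  nlinarith

theorem core (hHU : SHU) (hP : Grd P J₀ x) {J q : ℕ} (hJ : J ≤ J₀) (c : Fin J → ℝ)
    (hc : ∀ i, c i ∈ Set.Icc (0 : ℝ) 1) {a : ℝ} (ha0 : 0 < a) (ha : a ≤ 1 / 2)
    (hI : ∀ l, ‖l‖ = 1 → ¬P (q + 2) (cmb c l) a)
    (hD : ∀ t ∈ Set.Icc (0 : ℝ) 1, ∃ l : Fin (J + 1) → ℝ, ‖l‖ = 1 ∧
      P q (cmb (Fin.snoc c t) l) (a ^ 3)) {t : ℝ} (ht : t ∈ Set.Icc (0 : ℝ) 1) :
    P (q + 2) (Finsupp.single t 1 - Finsupp.single 1 t) ((18 * J + 2) * a) := by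
  have h0 : ∀ t ∈ Set.Icc (0 : ℝ) 1, ∃ τ : Fin J → ℝ, ‖τ‖ ≤ 2 / a ∧
      P q (Finsupp.single t 1 - cmb c τ) (2 * a ^ 2) := fun t ht => by
    obtain ⟨l, hl, h⟩ := hD t ht
    exact step hP c ha0 ha hI ht l hl h
  choose! τ hB hR using h0
  have h1 := hHU (Fin J → ℝ) τ (2 / a) (6 * a) hB (fun s s' hs hs' hss => by
    refine small hP c ha0 hI ?_
    have A := hP.add _ _ _ _ _ (hP.mono _ q _ _ _ (hP.base s s' hs hs' hss) (Nat.zero_le _) le_rfl)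
      (hP.smul _ _ _ (-1) (hR (s + s') ⟨by linarith, hss⟩))
    have B := hP.add _ _ _ _ _ (hR s ⟨hs, by linarith⟩) (hR s' ⟨hs', by linarith⟩)
    have C := hP.add _ _ _ _ _ A B
    have e : cmb c (τ (s + s') - τ s - τ s') =
        Finsupp.single (s + s') 1 - Finsupp.single s 1 - Finsupp.single s' 1 +
          (-1 : ℝ) • (Finsupp.single (s + s') 1 - cmb c (τ (s + s'))) +
          (Finsupp.single s 1 - cmb c (τ s) + (Finsupp.single s' 1 - cmb c (τ s'))) := by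
      rw [cmb_sub, cmb_sub, neg_one_smul]; abel
    rw [e]
    refine hP.mono _ _ _ _ _ C le_rfl (le_of_eq ?_)
    rw [abs_neg, abs_one]; ring) t ht
  have A := hP.add _ _ _ _ _ (hR t ht) (hP.smul _ _ _ (-t) (hR 1 ⟨zero_le_one, le_rfl⟩))
  have B := hP.mono _ (q + 1) _ _ _ (hP.triv J hJ c (τ t - t • τ 1) hc) (Nat.zero_le _) le_rfl
  have C := hP.add _ _ _ _ _ A B
  have e : Finsupp.single t 1 - Finsupp.single 1 t =
      Finsupp.single t 1 - cmb c (τ t) + (-t) • (Finsupp.single 1 1 - cmb c (τ 1)) +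
        cmb c (τ t - t • τ 1) := by
    rw [cmb_sub, cmb_smul, neg_smul, smul_sub, Finsupp.smul_single, smul_eq_mul, mul_one]; abel
  rw [e]
  refine hP.mono _ _ _ _ _ C le_rfl ?_
  rw [abs_neg, abs_of_nonneg ht.1]
  have h2 : (J : ℝ) * ‖τ t - t • τ 1‖ ≤ J * (3 * (6 * a)) :=
    mul_le_mul_of_nonneg_left h1 (Nat.cast_nonneg _)
  have h3 : t * (2 * a ^ 2) ≤ 2 * a ^ 2 := mul_le_of_le_one_left (by positivity) ht.2
  have h4 : 2 * a ^ 2 ≤ a := by nlinarith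
  linarith

theorem first (Q : ℕ → Prop) (h0 : Q 0) (n : ℕ) (hn : ¬Q n) : ∃ J < n, Q J ∧ ¬Q (J + 1) := by
  induction n with
  | zero => exact absurd h0 hn
  | succ n ih =>
    by_cases h : Q n
    · exact ⟨n, n.lt_succ_self, h, hn⟩
    · obtain ⟨J, h1, h2⟩ := ih h
      exact ⟨J, h1.trans n.lt_succ_self, h2⟩

end RANKA

open RANKA

theorem rowRANK : SRank := by
  intro hHU P J₀ x hP x0 x1 t ht
  obtain ⟨J, hJ, ⟨c, hc, hI⟩, hN⟩ := first (fun J => ∃ c : Fin J → ℝ,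
    (∀ i, c i ∈ Set.Icc (0 : ℝ) 1) ∧ ∀ l, ‖l‖ = 1 → ¬P (2 * (J₀ - J)) (cmb c l) (x ^ 3 ^ J))
    ⟨Fin.elim0, fun i => i.elim0, fun l hl => by
      rw [Subsingleton.elim l 0, norm_zero] at hl
      exact absurd hl zero_ne_one⟩ J₀ (by
      rintro ⟨c, hc, hI⟩
      obtain ⟨l, hl, h⟩ := hP.dep c hc
      exact hI l hl (hP.mono _ _ _ _ _ h (Nat.zero_le _) le_rfl))
  have a0 : 0 < x ^ 3 ^ J := by positivity
  have a1 : x ^ 3 ^ J ≤ x := pow_le_of_le_one x0.le (by linarith) (by positivity)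
  have e : 2 * (J₀ - J) = 2 * (J₀ - (J + 1)) + 2 := by omega
  rw [e] at hI
  have := core hHU hP hJ.le c hc a0 (a1.trans x1) hI (fun s hs => by
    by_contra hcon
    refine hN ⟨Fin.snoc c s, fun i => ?_, fun l hl h => hcon ⟨l, hl, ?_⟩⟩
    · refine Fin.lastCases ?_ (fun i => ?_) i
      · simpa using hs
      · simpa using hc i
    · rwa [← pow_mul, ← pow_succ]) ht
  refine hP.mono _ _ _ _ _ this (by omega) ?_
  have h1 : (J : ℝ) ≤ J₀ := by exact_mod_cast hJ.le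
  exact mul_le_mul (by linarith) a1 a0.le (by positivity)

end Pool.Agent.MP_5168f5_an.H95F
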