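import Pool.Agent.MP_5168f5_an.H95F.Spec

/-! Assembly of the combinatorial theorem. -/

namespace Pool.Agent.MP_5168f5_an.H95F

open H17S Finset

namespace SETAA

theorem wd {k : ℕ} {U : Set (V k)} {Γ W : Finset (D k)} {n K K' : ℕ} (h : Wd U Γ W n K)
    (hK : K ≤ K') : Wd U Γ W n K' := by
  have r : (K : ℝ) ≤ K' := by exact_mod_cast hK
  have z : (K : ℤ) ≤ K' := by exact_mod_cast hK
  refine ⟨fun v hv => (h.pb v hv).trans (by gcongr), fun v hv => (h.rb v hv).trans (by gcongr),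
    fun v hv => ?_, h.rd.trans (by gcongr)⟩
  obtain ⟨N, h1, h2, h3⟩ := h.nb v hv
  exact ⟨N, h1, h2.trans (by gcongr), fun d hd =>
    (h3 d hd).imp fun a ha => ⟨ha.1, ha.2.trans r⟩⟩

end SETAA

theorem rowSETA : SSet := by
  intro hFib hLin hAvg hL2 hDep hFin hNum k e e0
  obtain ⟨m, J, n₀, c, κ, c0, k0, J1, hN⟩ := hNum k e e0
  refine ⟨4 * J, 15 * (ex m J + 2), max n₀ 1, c, κ, c0, k0,
    fun n K U Γ T W hn K2 Kn hL hT hΓ zb gb hW => ?_⟩
  have n1 : 1 ≤ n := (le_max_right _ _).trans hn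
  have KK : K ≤ K ^ 15 := Nat.le_self_pow (by norm_num) K
  have K16 : 16 ≤ K ^ 15 := le_trans (by norm_num) (Nat.pow_le_pow_left K2 15)
  obtain ⟨s, L, x, L', h⟩ := hN n (K ^ 15) ((le_max_left _ _).trans hn) K16 (by
    rw [mul_comm, Real.rpow_mul (Nat.cast_nonneg _), Nat.cast_pow, ← Real.rpow_natCast]
    exact Real.rpow_le_rpow (Nat.cast_nonneg _) Kn (by norm_num))
  have wide : n ≤ K * (Γ.image Prod.fst).card := by
    classical
    have := hW.rd
    rcases W.eq_empty_or_nonempty with rfl | ⟨v, hv⟩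
    · simp at this; omega
    obtain ⟨N, h1, h2, -⟩ := hW.nb v hv
    exact h2.trans (Nat.mul_le_mul_left _ (card_le_card (image_subset_image h1)))
  have hW' := SETAA.wd hW KK
  have r : (K : ℝ) ≤ (K ^ 15 : ℕ) := by exact_mod_cast KK
  have ok : (ctx Γ n (K ^ 15)).OK := ⟨n1, K16, zb, fun a ha => (gb a ha).trans
    (mul_le_mul_of_nonneg_right r (Nat.cast_nonneg _)), wide.trans (Nat.mul_le_mul_right _ KK),
    hFib _ Γ T (AddMonoidHom.fst _ _) n K n1 K2 hT hΓ wide⟩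
  rw [pow_mul, ← Nat.cast_pow]
  generalize K ^ 15 = K' at *
  have l2 := hL2 k U n _ _ e n1 hL
  have lin := hLin _ _ _ ok J (3 * (J * (2 * m + 1)) + 10) x (by nlinarith) (by omega) h.x0 h.x1
    fun c hc => (hDep k U Γ W n K' m J s _ _ L e ok hW' l2 le_rfl J1 h.L1 h.L0 h.tup h.pair
      c hc).imp fun l hl => ⟨hl.1, hl.2.mono (le_trans (by norm_num) K16) (by omega) h.acc⟩
  obtain ⟨γ, g1, S, g2, g3⟩ := hAvg _ _ _ ok (ex m J) _ h.avg fun c hc => lin c ⟨hc.1.le, hc.2.le⟩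
  have x0 := h.x0
  refine ⟨γ, g1, fun v hv => (hFin k U Γ S W n K' _ _ (K' + K' * K' ^ (ex m J + 2)) _ L' e _ _ γ
    ok hW' l2 (by omega) h.L1' h.L0' ?_ g1 ?_ g2 g3 ?_ v hv).trans ?_⟩
  · positivity
  · push_cast; exact le_rfl
  · push_cast; exact h.fin
  · push_cast; exact h.out

end Pool.Agent.MP_5168f5_an.H95F
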