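import Pool.Agent.MP_5168f5_an.H95F.Spec

/-! A finite set of multipliers that detects large vectors. -/

namespace Pool.Agent.MP_5168f5_an.H95F

open H17S Finset

namespace TUPA

/-- A tuple of `S` outside few small boxes. -/
theorem exists_out {ι : Type} (m : ℕ) (S : Finset ℤ) (B : Finset ι) (T : ι → Finset ℤ) (c b : ℝ)
    (hB : (B.card : ℝ) ≤ b) (hc : 0 ≤ c) (hT : ∀ i ∈ B, ((T i).card : ℝ) ≤ c)
    (h : b * c ^ m < (S.card : ℝ) ^ m) :
    ∃ t : Fin m → ℤ, (∀ l, t l ∈ S) ∧ ∀ i ∈ B, ∃ l, t l ∉ T i := by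
  classical
  have h1 : ((B.biUnion fun i => Fintype.piFinset fun _ : Fin m => T i).card : ℝ) ≤ b * c ^ m := by
    calc ((B.biUnion fun i => Fintype.piFinset fun _ : Fin m => T i).card : ℝ)
        ≤ ((∑ i ∈ B, (Fintype.piFinset fun _ : Fin m => T i).card : ℕ) : ℝ) := by
          exact_mod_cast Finset.card_biUnion_le
      _ = ∑ i ∈ B, ((T i).card : ℝ) ^ m := by
          push_cast
          refine Finset.sum_congr rfl fun i _ => ?_
          simp [Fintype.card_piFinset]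
      _ ≤ ∑ _i ∈ B, c ^ m :=
          Finset.sum_le_sum fun i hi => pow_le_pow_left₀ (Nat.cast_nonneg _) (hT i hi) m
      _ = B.card * c ^ m := by simp
      _ ≤ b * c ^ m := mul_le_mul_of_nonneg_right hB (pow_nonneg hc m)
  have h2 : (B.biUnion fun i => Fintype.piFinset fun _ : Fin m => T i).card <
      (Fintype.piFinset fun _ : Fin m => S).card := by
    have e : ((Fintype.piFinset fun _ : Fin m => S).card : ℝ) = (S.card : ℝ) ^ m := by
      simp [Fintype.card_piFinset]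
    have : ((B.biUnion fun i => Fintype.piFinset fun _ : Fin m => T i).card : ℝ) <
        ((Fintype.piFinset fun _ : Fin m => S).card : ℝ) := by
      rw [e]; exact h1.trans_lt h
    exact_mod_cast this
  obtain ⟨t, ht, hn⟩ := Finset.exists_mem_notMem_of_card_lt_card h2
  refine ⟨t, fun l => Fintype.mem_piFinset.1 ht l, fun i hi => ?_⟩
  by_contra hcon
  push Not at hcon
  exact hn (Finset.mem_biUnion.2 ⟨i, hi, Fintype.mem_piFinset.2 hcon⟩)

theorem card_box (k N : ℕ) (hN : 1 ≤ N) :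
    ((Fintype.piFinset fun _ : Fin k => Finset.Icc (-(N : ℤ)) N).card : ℝ) ≤ (3 * N : ℝ) ^ k := by
  have e : (Finset.Icc (-(N : ℤ)) N).card = 2 * N + 1 := by
    rw [Int.card_Icc]; omega
  rw [Fintype.card_piFinset, Finset.prod_const, e, Finset.card_univ, Fintype.card_fin]
  push_cast
  have : (1 : ℝ) ≤ N := by exact_mod_cast hN
  exact pow_le_pow_left₀ (by positivity) (by linarith) k

theorem norm_floor {k : ℕ} (v : V k) : ‖(fun j => ((⌊v j⌋ : ℤ) : ℝ) : V k) - v‖ ≤ 1 := by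
  refine (pi_norm_le_iff_of_nonneg zero_le_one).2 fun j => ?_
  have h1 := Int.floor_le (v j)
  have h2 := Int.lt_floor_add_one (v j)
  simp only [Pi.sub_apply, Real.norm_eq_abs]
  rw [abs_le]
  constructor <;> linarith

end TUPA

open TUPA in
theorem rowTUP : STup := by
  classical
  intro k U n q q' m A L₀ e μ L hn hL hq hA hμ hL1 hL0 hnum
  have hnR : (1 : ℝ) ≤ n := by exact_mod_cast hn
  have hAR : (1 : ℝ) ≤ A := by exact_mod_cast hA
  have hn0 : (0 : ℝ) < n := by linarith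
  have hLe : 0 ≤ L ^ (-e) := Real.rpow_nonneg (by linarith) _
  let cs : Z k → V k := fun w j => (w j : ℝ)
  let B : Finset (Z k) :=
    (Fintype.piFinset fun _ : Fin k => Finset.Icc (-((A * n : ℕ) : ℤ)) (A * n : ℕ)).filter
      fun w => A * (2 * μ + 2) * L ≤ ‖cs w‖
  let T : Z k → Finset ℤ := fun w =>
    (Finset.Ico (0 : ℤ) n).filter fun t => Nr U q' (μ + 1) (((t : ℝ) / n) • cs w)
  have hB : (B.card : ℝ) ≤ (3 * A * n : ℝ) ^ k := by
    have h1 := card_box k (A * n) (Nat.one_le_iff_ne_zero.2 (by positivity))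
    have h2 : (B.card : ℝ) ≤ ((Fintype.piFinset fun _ : Fin k =>
        Finset.Icc (-((A * n : ℕ) : ℤ)) (A * n : ℕ)).card : ℝ) := by
      exact_mod_cast Finset.card_filter_le _ _
    refine h2.trans (h1.trans_eq ?_)
    push_cast
    ring
  have hT : ∀ w ∈ B, ((T w).card : ℝ) ≤ 3 * A ^ 2 * (n * L ^ (-e)) := by
    intro w hw
    obtain ⟨hw1, hw2⟩ := Finset.mem_filter.1 hw
    refine hL (q' + q') (by omega) A (cs w) (2 * μ + 2) L (T w) hA (by linarith) hL1 hL0 hw2 ?_ ?_ ?_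
    · refine (pi_norm_le_iff_of_nonneg (by positivity)).2 fun j => ?_
      have h := Finset.mem_Icc.1 (Fintype.mem_piFinset.1 hw1 j)
      have h' : |w j| ≤ ((A * n : ℕ) : ℤ) := abs_le.2 h
      have h'' : ((|w j| : ℤ) : ℝ) ≤ (((A * n : ℕ) : ℤ) : ℝ) := by exact_mod_cast h'
      simpa [cs, Real.norm_eq_abs] using h''
    · intro t ht
      have h := Finset.mem_Ico.1 (Finset.mem_filter.1 ht).1
      have hA' : (1 : ℤ) ≤ A := by exact_mod_cast hA
      rw [abs_of_nonneg h.1]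
      nlinarith [h.2, h.1]
    · intro t ht t' ht'
      have h := (Finset.mem_filter.1 ht).2.sub (Finset.mem_filter.1 ht').2
      rw [← sub_smul, ← sub_div] at h
      exact h.mono (by linarith)
  obtain ⟨t, ht, hout⟩ := exists_out m (Finset.Ico (0 : ℤ) n) B T _ _ hB (by positivity) hT (by
    have e1 : ((Finset.Ico (0 : ℤ) n).card : ℝ) = n := by simp
    rw [e1]
    calc (3 * A * n : ℝ) ^ k * (3 * A ^ 2 * (n * L ^ (-e))) ^ m
        = (3 * A * n : ℝ) ^ k * (3 * A ^ 2 * L ^ (-e)) ^ m * (n : ℝ) ^ m := by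
          have e2 : (3 * A ^ 2 * (n * L ^ (-e)) : ℝ) = 3 * A ^ 2 * L ^ (-e) * n := by ring
          rw [e2, mul_pow (3 * A ^ 2 * L ^ (-e) : ℝ), ← mul_assoc]
      _ < 1 * (n : ℝ) ^ m := mul_lt_mul_of_pos_right hnum (pow_pos hn0 m)
      _ = (n : ℝ) ^ m := one_mul _)
  refine ⟨t, ht, fun v hv hN => ?_⟩
  by_contra hcon
  push Not at hcon
  have hd : ‖cs (fun j => ⌊v j⌋) - v‖ ≤ 1 := norm_floor v
  have hw : (fun j => ⌊v j⌋) ∈ B := by
    refine Finset.mem_filter.2 ⟨Fintype.mem_piFinset.2 fun j => Finset.mem_Icc.2 (abs_le.1 ?_), ?_⟩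
    · have h1 : ‖cs (fun j => ⌊v j⌋)‖ ≤ A * n := by
        have := norm_le_norm_add_norm_sub' (cs fun j => ⌊v j⌋) v
        linarith
      have h2 := (norm_le_pi_norm (cs fun j => ⌊v j⌋) j).trans h1
      simp only [cs, Real.norm_eq_abs] at h2
      have h3 : ((|⌊v j⌋| : ℤ) : ℝ) ≤ (((A * n : ℕ) : ℤ) : ℝ) := by
        push_cast; exact h2
      exact_mod_cast h3
    · have h2 := norm_sub_norm_le v (cs fun j => ⌊v j⌋)
      rw [norm_sub_rev] at h2
      linarith
  obtain ⟨l, hl⟩ := hout _ hw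
  refine hl (Finset.mem_filter.2 ⟨ht l, (hN l).near ?_⟩)
  have h := Finset.mem_Ico.1 (ht l)
  have h0 : (0 : ℝ) ≤ t l := by exact_mod_cast h.1
  have h1 : (t l : ℝ) ≤ n := by exact_mod_cast h.2.le
  rw [← smul_sub, norm_smul, Real.norm_eq_abs, abs_of_nonneg (by positivity)]
  have h2 : (t l : ℝ) / n ≤ 1 := (div_le_one hn0).2 h1
  have h3 : (t l : ℝ) / n * ‖cs (fun j => ⌊v j⌋) - v‖ ≤ 1 :=
    mul_le_one₀ h2 (norm_nonneg _) hd
  linarith

end Pool.Agent.MP_5168f5_an.H95F
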