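import Pool.Agent.MP_5168f5_an.H95F.FIB
import Pool.Agent.MP_5168f5_an.H95F.BUILD
import Pool.Agent.MP_5168f5_an.H95F.ADD
import Pool.Agent.MP_5168f5_an.H95F.BASE
import Pool.Agent.MP_5168f5_an.H95F.HU
import Pool.Agent.MP_5168f5_an.H95F.RANK
import Pool.Agent.MP_5168f5_an.H95F.LIN
import Pool.Agent.MP_5168f5_an.H95F.AVG
import Pool.Agent.MP_5168f5_an.H95F.MATCH
import Pool.Agent.MP_5168f5_an.H95F.LINE2
import Pool.Agent.MP_5168f5_an.H95F.TUP
import Pool.Agent.MP_5168f5_an.H95F.PAIR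
import Pool.Agent.MP_5168f5_an.H95F.DEP
import Pool.Agent.MP_5168f5_an.H95F.FIN
import Pool.Agent.MP_5168f5_an.H95F.NUM
import Pool.Agent.MP_5168f5_an.H95F.SETA

/-! Linearisation of a bilinear expression: the combinatorial theorem. -/

namespace Pool.Agent.MP_5168f5_an.H95F

theorem setT : SetT :=
  set_of rowFIB rowBUILD rowADD rowBASE rowHU rowRANK rowLIN rowAVG rowMATCH rowLINE2 rowTUP
    rowPAIR rowDEP rowFIN rowNUM rowSETA

theorem line2 : SLine2 := rowLINE2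

end Pool.Agent.MP_5168f5_an.H95F
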