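import Pool.Agent.MP_5168f5_an.H17S.Defs

/-! Linearisation of a bilinear expression: definitions and small tools. -/

namespace Pool.Agent.MP_5168f5_an.H95F

open H17S Finset

/-- The lattice of pairs of an integer and an integer vector. -/
abbrev D (k : ℕ) : Type := ℤ × Z k

variable {k : ℕ}

/-- The vector part of `d`. -/
def gR (k : ℕ) : D k →+ V k where
  toFun d := fun i => (d.2 i : ℝ)
  map_zero' := by funext i; simp
  map_add' a b := by funext i; simp

/-- The bilinear expression `(ζ p + r g) / n` for `d = (ζ, g)` and `v = (r, p)`. -/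
noncomputable def MM (n : ℕ) (d v : D k) : V k :=
  ((d.1 : ℝ) / n) • gR k v + ((v.1 : ℝ) / n) • gR k d

/-- `x` is within `μ` of `qU - qU`. -/
def Nr (U : Set (V k)) (q : ℕ) (μ : ℝ) (x : V k) : Prop :=
  ∃ a b : Fin q → V k, (∀ i, a i ∈ U ∧ b i ∈ U) ∧ ‖x - ∑ i, (a i - b i)‖ ≤ μ

/-- The levels `q' ≤ q` of `U` contain no dense part of a long segment. -/
def Line (U : Set (V k)) (n q : ℕ) (L₀ e : ℝ) : Prop :=
  ∀ q' ≤ q, ∀ (v : V k) (μ L : ℝ) (T : Finset ℤ), 1 ≤ μ → L₀ ≤ L → μ * L ≤ ‖v‖ → ‖v‖ ≤ n →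
    T ⊆ Finset.Ico (0 : ℤ) n → (∀ t ∈ T, ∀ t' ∈ T, Nr U q' μ ((((t : ℝ) - t') / n) • v)) →
    (T.card : ℝ) ≤ n * L ^ (-e)

theorem Line.mono {U : Set (V k)} {n q q' : ℕ} {L₀ L₁ e : ℝ} (h : Line U n q L₀ e) (hq : q' ≤ q)
    (hL : L₀ ≤ L₁) : Line U n q' L₁ e :=
  fun q'' h1 v μ L T h2 h3 => h q'' (h1.trans hq) v μ L T h2 (hL.trans h3)

section NrApi

variable {U : Set (V k)} {q q' : ℕ} {μ μ' : ℝ} {x y : V k}

theorem Nr.near (h : Nr U q μ x) (hxy : ‖y - x‖ + μ ≤ μ') : Nr U q μ' y := by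
  obtain ⟨a, b, h1, h2⟩ := h
  refine ⟨a, b, h1, ?_⟩
  have e : y - ∑ i, (a i - b i) = (y - x) + (x - ∑ i, (a i - b i)) := by abel
  rw [e]
  exact (norm_add_le _ _).trans (by linarith)

theorem Nr.mono (h : Nr U q μ x) (hμ : μ ≤ μ') : Nr U q μ' x := h.near (by simpa using hμ)

theorem Nr.neg (h : Nr U q μ x) : Nr U q μ (-x) := by
  obtain ⟨a, b, h1, h2⟩ := h
  refine ⟨b, a, fun i => ⟨(h1 i).2, (h1 i).1⟩, ?_⟩
  have e : -x - ∑ i, (b i - a i) = -(x - ∑ i, (a i - b i)) := by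
    simp only [Finset.sum_sub_distrib]; abel
  rw [e, norm_neg]; exact h2

theorem Nr.add (h : Nr U q μ x) (h' : Nr U q' μ' y) : Nr U (q + q') (μ + μ') (x + y) := by
  obtain ⟨a, b, h1, h2⟩ := h
  obtain ⟨a', b', h1', h2'⟩ := h'
  refine ⟨Fin.append a a', Fin.append b b', fun i => ?_, ?_⟩
  · refine Fin.addCases (fun i => ?_) (fun i => ?_) i
    · simpa using h1 i
    · simpa using h1' i
  · rw [Fin.sum_univ_add]
    simp only [Fin.append_left, Fin.append_right]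
    have e : x + y - (∑ i, (a i - b i) + ∑ i, (a' i - b' i)) =
        (x - ∑ i, (a i - b i)) + (y - ∑ i, (a' i - b' i)) := by abel
    rw [e]
    exact (norm_add_le _ _).trans (add_le_add h2 h2')

theorem Nr.sub (h : Nr U q μ x) (h' : Nr U q' μ' y) : Nr U (q + q') (μ + μ') (x - y) := by
  rw [sub_eq_add_neg]; exact h.add h'.neg

theorem nr_zero (U : Set (V k)) : Nr U 0 0 0 := ⟨Fin.elim0, Fin.elim0, fun i => i.elim0, by simp⟩

theorem nr_pair {a b : V k} (ha : a ∈ U) (hb : b ∈ U) (hx : ‖x - a‖ ≤ μ) (hy : ‖y - b‖ ≤ μ') :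
    Nr U 1 (μ + μ') (x - y) := by
  refine ⟨fun _ => a, fun _ => b, fun _ => ⟨ha, hb⟩, ?_⟩
  have e : x - y - ∑ _i : Fin 1, (a - b) = (x - a) - (y - b) := by simp; abel
  rw [e]
  exact (norm_sub_le _ _).trans (add_le_add hx hy)

theorem Nr.sum {ι : Type} (s : Finset ι) {f : ι → V k} (h : ∀ i ∈ s, Nr U q μ (f i)) :
    Nr U (s.card * q) (s.card * μ) (∑ i ∈ s, f i) := by
  classical
  induction s using Finset.induction_on with
  | empty => simpa using nr_zero U
  | insert i s hi ih =>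
    rw [Finset.sum_insert hi, Finset.card_insert_of_notMem hi]
    have := (h i (Finset.mem_insert_self i s)).add (ih fun j hj => h j (Finset.mem_insert_of_mem hj))
    have e1 : (s.card + 1) * q = q + s.card * q := by ring
    have e2 : ((s.card + 1 : ℕ) : ℝ) * μ = μ + s.card * μ := by push_cast; ring
    rw [e1, e2]; exact this

end NrApi

theorem MM_sub (n : ℕ) (d d' v : D k) : MM n (d - d') v = MM n d v - MM n d' v := by
  simp only [MM, map_sub, Prod.fst_sub, Int.cast_sub, sub_div, sub_smul, smul_sub]; abel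

theorem MM_add (n : ℕ) (d d' v : D k) : MM n (d + d') v = MM n d v + MM n d' v := by
  simp only [MM, map_add, Prod.fst_add, Int.cast_add, add_div, add_smul, smul_add]; abel

theorem MM_comm (n : ℕ) (d v : D k) : MM n d v = MM n v d := add_comm _ _

section Count

variable {α H : Type}

/-- Averaging over shifts. -/
theorem shift [AddCommGroup H] [DecidableEq H] (Z : Finset α) (φ : α → H) (R Bx : Finset H)
    (h : ∀ z ∈ Z, ∀ ρ ∈ R, ρ - φ z ∈ Bx) :
    ∃ s : H, Z.card * R.card ≤ Bx.card * (Z.filter fun z => φ z + s ∈ R).card := by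
  rcases Bx.eq_empty_or_nonempty with rfl | hB
  · refine ⟨0, ?_⟩
    rcases Z.eq_empty_or_nonempty with rfl | ⟨z, hz⟩
    · simp
    · rcases R.eq_empty_or_nonempty with rfl | ⟨ρ, hρ⟩
      · simp
      · exact absurd (h z hz ρ hρ) (by simp)
  · obtain ⟨s, hs, hmax⟩ := Finset.exists_max_image Bx
      (fun s => (Z.filter fun z => φ z + s ∈ R).card) hB
    refine ⟨s, ?_⟩
    have h1 : ∑ t ∈ Bx, (Z.filter fun z => φ z + t ∈ R).card ≤
        Bx.card * (Z.filter fun z => φ z + s ∈ R).card :=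
      Finset.sum_le_card_nsmul _ _ _ hmax
    refine le_trans ?_ h1
    simp only [Finset.card_filter]
    rw [Finset.sum_comm]
    have h2 : ∀ z ∈ Z, R.card ≤ ∑ t ∈ Bx, if φ z + t ∈ R then 1 else 0 := by
      intro z hz
      rw [← Finset.card_filter]
      refine Finset.card_le_card_of_injOn (fun ρ => ρ - φ z) (fun ρ hρ => ?_)
        fun a _ b _ e => sub_left_injective e
      simp only [Finset.coe_filter, Set.mem_ofPred_eq]
      exact ⟨h z hz ρ hρ, by simpa using hρ⟩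
    simpa using Finset.card_nsmul_le_sum _ _ _ h2

/-- Averaging over several shifts. -/
theorem shifts [AddCommGroup H] {A : Type} (I : Finset A) (Z : Finset α)
    (φ : A → α → H) (R Bx : A → Finset H) (B : ℕ)
    (h : ∀ a ∈ I, ∀ z ∈ Z, ∀ ρ ∈ R a, ρ - φ a z ∈ Bx a)
    (hR : ∀ a ∈ I, (R a).Nonempty) (hB : ∀ a ∈ I, (Bx a).card ≤ B * (R a).card) :
    ∃ (s : A → H) (Z' : Finset α), Z' ⊆ Z ∧ Z.card ≤ B ^ I.card * Z'.card ∧
      ∀ a ∈ I, ∀ z ∈ Z', φ a z + s a ∈ R a := by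
  classical
  induction I using Finset.induction_on with
  | empty => exact ⟨0, Z, subset_rfl, by simp, by simp⟩
  | insert i I hi ih =>
    obtain ⟨s, Z', h1, h2, h3⟩ := ih (fun a ha => h a (Finset.mem_insert_of_mem ha))
      (fun a ha => hR a (Finset.mem_insert_of_mem ha)) fun a ha => hB a (Finset.mem_insert_of_mem ha)
    have hi' := Finset.mem_insert_self i I
    obtain ⟨t, ht⟩ := shift Z' (φ i) (R i) (Bx i) fun z hz => h i hi' z (h1 hz)
    refine ⟨Function.update s i t, Z'.filter fun z => φ i z + t ∈ R i,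
      (Finset.filter_subset _ _).trans h1, ?_, ?_⟩
    · have h4 : Z'.card ≤ B * (Z'.filter fun z => φ i z + t ∈ R i).card := by
        refine Nat.le_of_mul_le_mul_right ?_ (hR i hi').card_pos
        refine ht.trans ((Nat.mul_le_mul_right _ (hB i hi')).trans (le_of_eq (by ring)))
      rw [Finset.card_insert_of_notMem hi, pow_succ, mul_assoc]
      exact h2.trans (Nat.mul_le_mul_left _ h4)
    · intro a ha z hz
      rcases Finset.mem_insert.1 ha with rfl | ha'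
      · simpa using (Finset.mem_filter.1 hz).2
      · rw [Function.update_of_ne (by rintro rfl; exact hi ha')]
        exact h3 a ha' z (Finset.mem_filter.1 hz).1

/-- Pigeonhole for several functions with few values. -/
theorem pig {A : Type} (I : Finset A) (Z : Finset α) (e : A → α → H) (B : ℕ)
    (h : ∀ a ∈ I, ∃ T : Finset H, T.card ≤ B ∧ ∀ z ∈ Z, e a z ∈ T) :
    ∃ Z' : Finset α, Z' ⊆ Z ∧ Z.card ≤ B ^ I.card * Z'.card ∧
      ∀ a ∈ I, ∀ z ∈ Z', ∀ z' ∈ Z', e a z = e a z' := by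
  classical
  induction I using Finset.induction_on with
  | empty => exact ⟨Z, subset_rfl, by simp, by simp⟩
  | insert i I hi ih =>
    obtain ⟨Z', h1, h2, h3⟩ := ih fun a ha => h a (Finset.mem_insert_of_mem ha)
    obtain ⟨T, hT, hT'⟩ := h i (Finset.mem_insert_self i I)
    rcases Z'.eq_empty_or_nonempty with rfl | ⟨z₀, hz₀⟩
    · exact ⟨∅, h1, by simpa using h2, by simp⟩
    obtain ⟨t, ht, hmax⟩ := Finset.exists_max_image T
      (fun t => (Z'.filter fun z => e i z = t).card) ⟨_, hT' z₀ (h1 hz₀)⟩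
    refine ⟨Z'.filter fun z => e i z = t, (Finset.filter_subset _ _).trans h1, ?_, ?_⟩
    · have h4 : Z'.card ≤ B * (Z'.filter fun z => e i z = t).card := by
        rw [Finset.card_eq_sum_card_fiberwise (f := e i) (t := T) fun z hz => hT' z (h1 hz)]
        exact (Finset.sum_le_card_nsmul _ _ _ hmax).trans (Nat.mul_le_mul_right _ hT)
      rw [Finset.card_insert_of_notMem hi, pow_succ, mul_assoc]
      exact h2.trans (Nat.mul_le_mul_left _ h4)
    · intro a ha z hz z' hz'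
      rcases Finset.mem_insert.1 ha with rfl | ha'
      · rw [(Finset.mem_filter.1 hz).2, (Finset.mem_filter.1 hz').2]
      · exact h3 a ha' z (Finset.mem_filter.1 hz).1 z' (Finset.mem_filter.1 hz').1

/-- Pigeonhole for one function. -/
theorem pig1 (Z : Finset α) (e : α → H) (T : Finset H) (h : ∀ z ∈ Z, e z ∈ T) :
    ∃ Z' : Finset α, Z' ⊆ Z ∧ Z.card ≤ T.card * Z'.card ∧ ∀ z ∈ Z', ∀ z' ∈ Z', e z = e z' := by
  obtain ⟨Z', h1, h2, h3⟩ := pig ({()} : Finset Unit) Z (fun _ => e) T.card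
    fun _ _ => ⟨T, le_rfl, h⟩
  exact ⟨Z', h1, by simpa using h2, h3 () (by simp)⟩

end Count

/-- The formal combination `∑ l i [c i]`. -/
noncomputable def cmb {J : ℕ} (c l : Fin J → ℝ) : ℝ →₀ ℝ := ∑ i, Finsupp.single (c i) (l i)

section Cmb

variable {J : ℕ} (c l l' : Fin J → ℝ)

theorem cmb_add : cmb c (l + l') = cmb c l + cmb c l' := by
  simp [cmb, Finsupp.single_add, Finset.sum_add_distrib]

theorem cmb_sub : cmb c (l - l') = cmb c l - cmb c l' := by
  simp [cmb, Finsupp.single_sub, Finset.sum_sub_distrib]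

theorem cmb_smul (t : ℝ) : cmb c (t • l) = t • cmb c l := by
  simp [cmb, Finset.smul_sum]

theorem cmb_succ (c l : Fin (J + 1) → ℝ) : cmb c l =
    cmb (fun i => c i.castSucc) (fun i => l i.castSucc) +
      Finsupp.single (c (Fin.last J)) (l (Fin.last J)) := by
  simp [cmb, Fin.sum_univ_castSucc]

theorem mem_support_cmb {x : ℝ} (h : x ∈ (cmb c l).support) : ∃ i, c i = x := by
  classical
  obtain ⟨i, -, hi⟩ := Finsupp.mem_support_finsetSum x h
  exact ⟨i, (Finset.mem_singleton.1 (Finsupp.support_single_subset hi)).symm⟩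

theorem card_support_cmb : (cmb c l).support.card ≤ J := by
  classical
  have : (cmb c l).support ⊆ Finset.univ.image c := fun x hx => by
    obtain ⟨i, hi⟩ := mem_support_cmb c l hx
    exact Finset.mem_image.2 ⟨i, Finset.mem_univ _, hi⟩
  exact (Finset.card_le_card this).trans (Finset.card_image_le.trans (by simp))

theorem lc_cmb {E : Type} [AddCommGroup E] [Module ℝ E] (φ : ℝ → E) :
    Finsupp.linearCombination ℝ φ (cmb c l) = ∑ i, l i • φ (c i) := by
  simp [cmb, map_sum]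

end Cmb

/-- Only the values on the support matter. -/
theorem lc_congr {E : Type} [AddCommGroup E] [Module ℝ E] {φ ψ : ℝ → E} {f : ℝ →₀ ℝ}
    (h : ∀ c ∈ f.support, φ c = ψ c) :
    Finsupp.linearCombination ℝ φ f = Finsupp.linearCombination ℝ ψ f := by
  simp only [Finsupp.linearCombination_apply]
  exact Finsupp.sum_congr fun c hc => by rw [h c hc]

/-- A finite set `Γ` in a group with an integer coordinate `ζ` and a vector coordinate `g`. -/
structure Ctx (G E : Type) [AddCommGroup G] [NormedAddCommGroup E] where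
  Γ : Finset G
  ζ : G →+ ℤ
  g : G →+ E
  n : ℕ
  K : ℕ

namespace Ctx

variable {G E : Type} [AddCommGroup G] [NormedAddCommGroup E] [NormedSpace ℝ E] (X : Ctx G E)

/-- `Γ` is the graph of an approximate homomorphism defined on a dense subset of `[-n, n]`. -/
structure OK : Prop where
  hn : 1 ≤ X.n
  hK : 16 ≤ X.K
  zb : ∀ a ∈ X.Γ, |X.ζ a| ≤ X.n
  gb : ∀ a ∈ X.Γ, ‖X.g a‖ ≤ X.K * X.n
  wide : X.n ≤ X.K * (X.Γ.image X.ζ).card
  few : ∀ σ : ℝ, ∃ T : Finset G, T.card ≤ X.K ∧ ∀ a ∈ X.Γ, ∀ b ∈ X.Γ, ∀ c ∈ X.Γ, ∀ e ∈ X.Γ,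
    |(X.ζ (a + b - c - e) : ℝ) - σ| ≤ 3 → a + b - c - e ∈ T

/-- A family of density `K^{-a}` for the scalars in `C`. -/
structure Fam (a : ℕ) (C : Set ℝ) (Z : Finset ℤ) (d : ℝ → ℤ → G) (s : ℝ → ℝ) : Prop where
  sub : Z ⊆ Finset.Ico (0 : ℤ) X.n
  big : X.n ≤ X.K ^ a * Z.card
  mem : ∀ c ∈ C, ∀ z ∈ Z, d c z ∈ X.Γ
  zet : ∀ c ∈ C, ∀ z ∈ Z, |(X.ζ (d c z) : ℝ) - c * z - s c| ≤ 1

/-- The combination `f` is constant up to `μ` on a family of density `K^{-a}`. -/
def Sm (a : ℕ) (f : ℝ →₀ ℝ) (μ : ℝ) : Prop :=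
  ∃ Z d s, X.Fam a f.support Z d s ∧ ∀ z ∈ Z, ∀ z' ∈ Z,
    ‖Finsupp.linearCombination ℝ (fun c => X.g (d c z - d c z')) f‖ ≤ μ

variable {X}

omit [NormedSpace ℝ E] in
theorem Fam.mono {a a' : ℕ} {C C' : Set ℝ} {Z d s} (hK : 1 ≤ X.K) (h : X.Fam a C Z d s)
    (ha : a ≤ a') (hC : C' ⊆ C) : X.Fam a' C' Z d s :=
  ⟨h.sub, h.big.trans (Nat.mul_le_mul_right _ (Nat.pow_le_pow_right hK ha)),
    fun c hc => h.mem c (hC hc), fun c hc => h.zet c (hC hc)⟩

theorem Sm.mono {a a' : ℕ} {f : ℝ →₀ ℝ} {μ μ' : ℝ} (hK : 1 ≤ X.K) (h : X.Sm a f μ) (ha : a ≤ a')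
    (hμ : μ ≤ μ') : X.Sm a' f μ' := by
  obtain ⟨Z, d, s, h1, h2⟩ := h
  exact ⟨Z, d, s, h1.mono hK ha subset_rfl, fun z hz z' hz' => (h2 z hz z' hz').trans hμ⟩

theorem Sm.smul {a : ℕ} {f : ℝ →₀ ℝ} {μ : ℝ} (hK : 1 ≤ X.K) (h : X.Sm a f μ) (t : ℝ) :
    X.Sm a (t • f) (|t| * μ) := by
  obtain ⟨Z, d, s, h1, h2⟩ := h
  refine ⟨Z, d, s, h1.mono hK le_rfl (Finset.coe_subset.2 Finsupp.support_smul),
    fun z hz z' hz' => ?_⟩
  rw [map_smul, norm_smul, Real.norm_eq_abs]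
  exact mul_le_mul_of_nonneg_left (h2 z hz z' hz') (abs_nonneg t)

end Ctx

/-- The context on the lattice of parameters. -/
def ctx (Γ : Finset (D k)) (n K : ℕ) : Ctx (D k) (V k) :=
  ⟨Γ, AddMonoidHom.fst _ _, gR k, n, K⟩

/-- A set `W` of wide vectors `(r, p)` whose `r` parts are dense. -/
structure Wd (U : Set (V k)) (Γ W : Finset (D k)) (n K : ℕ) : Prop where
  pb : ∀ v ∈ W, ‖gR k v‖ ≤ K * n
  rb : ∀ v ∈ W, |v.1| ≤ K * n
  nb : ∀ v ∈ W, ∃ N ⊆ Γ, n ≤ K * (N.image Prod.fst).card ∧ ∀ d ∈ N, ∃ a ∈ U, ‖MM n d v - a‖ ≤ K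
  rd : n ≤ K * (W.image Prod.fst).card

end Pool.Agent.MP_5168f5_an.H95F
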