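import Pool.Agent.MP_5168f5_an.H95F.Spec

/-! A small difference set has small fibres. -/

namespace Pool.Agent.MP_5168f5_an.H95F

open Finset
open scoped Pointwise

namespace FIBA

variable {G : Type} [AddCommGroup G] [DecidableEq G]

theorem big (Γ : Finset G) (n K : ℕ) (hn : 1 ≤ n) (hΓ : Γ.Nonempty) (h1 : (Γ - Γ).card ≤ K * n)
    (h2 : n ≤ K * Γ.card) : (3 • Γ - 2 • Γ).card ≤ K ^ 9 * n := by
  have h := pluennecke_ruzsa_inequality_nsmul_sub_nsmul_sub hΓ Γ 3 2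
  have a0 : 0 < Γ.card := hΓ.card_pos
  have a1 : (0 : ℚ≥0) < Γ.card := by exact_mod_cast a0
  rw [div_pow, div_mul_eq_mul_div, le_div_iff₀ (pow_pos a1 _)] at h
  have h3 : (3 • Γ - 2 • Γ).card * Γ.card ^ (3 + 2) ≤ (Γ - Γ).card ^ (3 + 2) * Γ.card := by
    exact_mod_cast h
  have h4 : (3 • Γ - 2 • Γ).card * Γ.card ^ 4 ≤ (K * n) ^ 5 := by
    refine Nat.le_of_mul_le_mul_right ?_ a0
    calc (3 • Γ - 2 • Γ).card * Γ.card ^ 4 * Γ.card
        = (3 • Γ - 2 • Γ).card * Γ.card ^ (3 + 2) := by ring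
      _ ≤ _ := h3
      _ ≤ _ := Nat.mul_le_mul_right _ (Nat.pow_le_pow_left h1 _)
  refine Nat.le_of_mul_le_mul_right ?_ (pow_pos (show 0 < n from hn) 4)
  calc (3 • Γ - 2 • Γ).card * n ^ 4 ≤ (3 • Γ - 2 • Γ).card * (K * Γ.card) ^ 4 :=
        Nat.mul_le_mul_left _ (Nat.pow_le_pow_left h2 _)
    _ = K ^ 4 * ((3 • Γ - 2 • Γ).card * Γ.card ^ 4) := by ring
    _ ≤ K ^ 4 * (K * n) ^ 5 := Nat.mul_le_mul_left _ h4
    _ = _ := by ring

theorem fibre (Γ : Finset G) (ζ : G →+ ℤ) (t : ℤ) :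
    ((Γ + Γ - Γ - Γ).filter fun x => ζ x = t).card * (Γ.image ζ).card ≤
      (3 • Γ - 2 • Γ).card := by
  have hs : ∀ z ∈ Γ.image ζ, ∃ g, g ∈ Γ ∧ ζ g = z := fun z hz => mem_image.1 hz
  choose! s hs1 hs2 using hs
  rw [← card_product]
  refine card_le_card_of_injOn (fun p => p.1 + s p.2) ?_ ?_
  · rintro ⟨x, z⟩ hp
    obtain ⟨hx, hz⟩ := mem_product.1 (mem_coe.1 hp)
    obtain ⟨u, hu, e, he, rfl⟩ := mem_sub.1 (mem_filter.1 hx).1
    obtain ⟨v, hv, c, hc, rfl⟩ := mem_sub.1 hu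
    obtain ⟨a, ha, b, hb, rfl⟩ := mem_add.1 hv
    have e3 : 3 • Γ = Γ + Γ + Γ := by rw [succ_nsmul, two_nsmul]
    rw [mem_coe, e3, two_nsmul]
    refine mem_sub.2 ⟨a + b + s z, add_mem_add (add_mem_add ha hb) (hs1 z hz), c + e,
      add_mem_add hc he, ?_⟩
    simp only
    abel
  · rintro ⟨x, z⟩ hp ⟨x', z'⟩ hp' h
    obtain ⟨hx, hz⟩ := mem_product.1 (mem_coe.1 hp)
    obtain ⟨hx', hz'⟩ := mem_product.1 (mem_coe.1 hp')
    simp only at h hx hz hx' hz'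
    have h1 := congrArg ζ h
    rw [map_add, map_add, (mem_filter.1 hx).2, (mem_filter.1 hx').2, hs2 z hz, hs2 z' hz'] at h1
    have h2 : z = z' := add_left_cancel h1
    subst h2
    rw [add_right_cancel h]

end FIBA

theorem rowFIB : SFib := by
  intro G _ Γ T ζ n K hn hK hT hΓT hI σ
  classical
  have hne : Γ.Nonempty := by
    rcases Γ.eq_empty_or_nonempty with rfl | h
    · simp at hI; omega
    · exact h
  have h1 : (Γ - Γ).card ≤ K * n := by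
    refine (card_le_card fun x hx => ?_).trans hT
    obtain ⟨a, ha, b, hb, rfl⟩ := mem_sub.1 hx
    exact hΓT a ha b hb
  have h2 := FIBA.big Γ n K hn hne h1 (hI.trans (Nat.mul_le_mul_left _ card_image_le))
  have h3 : ∀ t : ℤ, ((Γ + Γ - Γ - Γ).filter fun x => ζ x = t).card ≤ K ^ 10 := by
    intro t
    refine Nat.le_of_mul_le_mul_right ?_ (show 0 < n from hn)
    calc ((Γ + Γ - Γ - Γ).filter fun x => ζ x = t).card * n
        ≤ ((Γ + Γ - Γ - Γ).filter fun x => ζ x = t).card * (K * (Γ.image ζ).card) :=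
          Nat.mul_le_mul_left _ hI
      _ = K * (((Γ + Γ - Γ - Γ).filter fun x => ζ x = t).card * (Γ.image ζ).card) := by ring
      _ ≤ K * (K ^ 9 * n) := Nat.mul_le_mul_left _ ((FIBA.fibre Γ ζ t).trans h2)
      _ = _ := by ring
  refine ⟨(Icc ⌈σ - 3⌉ (⌈σ - 3⌉ + 6)).biUnion fun t => (Γ + Γ - Γ - Γ).filter fun x => ζ x = t,
    ?_, fun a ha b hb c hc e he h => ?_⟩
  · refine (card_biUnion_le_card_mul _ _ _ fun t _ => h3 t).trans ?_
    have h4 : (Icc ⌈σ - 3⌉ (⌈σ - 3⌉ + 6)).card = 7 := by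
      rw [Int.card_Icc]
      omega
    have h5 : 2 ^ 5 ≤ K ^ 5 := Nat.pow_le_pow_left hK 5
    rw [h4, show K ^ 15 = K ^ 5 * K ^ 10 by ring]
    exact Nat.mul_le_mul_right _ (by omega)
  · rw [abs_le] at h
    refine mem_biUnion.2 ⟨ζ (a + b - c - e), mem_Icc.2 ⟨Int.ceil_le.2 (by linarith [h.1]), ?_⟩,
      mem_filter.2 ⟨sub_mem_sub (sub_mem_sub (add_mem_add ha hb) hc) he, rfl⟩⟩
    have h4 := Int.le_ceil (σ - 3)
    have h5 : (ζ (a + b - c - e) : ℝ) ≤ ((⌈σ - 3⌉ + 6 : ℤ) : ℝ) := by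
      rw [Int.cast_add, Int.cast_ofNat]
      linarith [h.2]
    exact_mod_cast h5

end Pool.Agent.MP_5168f5_an.H95F
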