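import Pool.Agent.MP_5168f5_an.H95F.Spec

namespace Pool.Agent.MP_5168f5_an.H95F

open H17S Finset

namespace PAIRA

theorem fl_mem {n s y : ℕ} {t : ℤ} (hy : y < s) (ht : t ∈ Finset.Ico (0 : ℤ) n) :
    0 ≤ ⌊(y : ℝ) / s * t⌋ ∧ ⌊(y : ℝ) / s * t⌋ ≤ n := by
  obtain ⟨h0, h1⟩ := Finset.mem_Ico.1 ht
  have hs : (0 : ℝ) < s := by exact_mod_cast (Nat.zero_le y).trans_lt hy
  have a0 : (0 : ℝ) ≤ (y : ℝ) / s := by positivity
  have a1 : (y : ℝ) / s ≤ 1 := (div_le_one hs).2 (by exact_mod_cast hy.le)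
  have t0 : (0 : ℝ) ≤ t := by exact_mod_cast h0
  refine ⟨Int.floor_nonneg.2 (mul_nonneg a0 t0), ?_⟩
  have : ⌊(y : ℝ) / s * t⌋ ≤ ⌊(t : ℝ)⌋ := Int.floor_le_floor (by nlinarith)
  rw [Int.floor_intCast] at this
  omega

theorem nrm {k J : ℕ} (c : Fin J → ℝ) (hc : ∀ i, c i ∈ Set.Icc (0 : ℝ) 1) (v : Fin J → V k)
    {B : ℝ} (hv : ∀ i, ‖v i‖ ≤ B) : ‖∑ i, c i • v i‖ ≤ J * B := by
  refine (norm_sum_le _ _).trans ?_
  have : ∀ i ∈ (univ : Finset (Fin J)), ‖c i • v i‖ ≤ B := fun i _ => by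
    rw [norm_smul, Real.norm_eq_abs, abs_of_nonneg (hc i).1]
    nlinarith [(hc i).1, (hc i).2, hv i, norm_nonneg (v i)]
  simpa using Finset.sum_le_card_nsmul _ _ _ this

end PAIRA

open PAIRA

theorem rowPAIR : SPair := by
  intro k U Γ W n K m J s t c hn hK hJ hW ht hc hs
  classical
  have hR : (W.image Prod.fst).Nonempty := by
    rw [← Finset.card_pos]
    have := hW.rd
    by_contra h
    rw [Nat.eq_zero_of_not_pos h] at this
    omega
  obtain ⟨r0, Y, hY, hcard, hmem⟩ := shifts (univ : Finset (Fin m)) (range s)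
    (fun l y => ⌊(y : ℝ) / s * t l⌋) (fun _ => W.image Prod.fst)
    (fun _ => Finset.Icc (-((K + 1 : ℤ) * n)) (K * n)) (K ^ 3)
    (fun l _ y hy ρ hρ => by
      obtain ⟨v, hv, rfl⟩ := Finset.mem_image.1 hρ
      obtain ⟨h1, h2⟩ := fl_mem (Finset.mem_range.1 hy) (ht l)
      obtain ⟨h3, h4⟩ := abs_le.1 (hW.rb v hv)
      rw [Finset.mem_Icc]
      constructor <;> nlinarith)
    (fun _ _ => hR)
    (fun _ _ => by
      have e : (Finset.Icc (-((K + 1 : ℤ) * n)) (K * n)).card = (2 * K + 1) * n + 1 := by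
        rw [Int.card_Icc]
        have : (K * n + 1 - -((K + 1 : ℤ) * n)) = (((2 * K + 1) * n + 1 : ℕ) : ℤ) := by
          push_cast; ring
        rw [this, Int.toNat_natCast]
      rw [e]
      have h1 : (2 * K + 1) * n + 1 ≤ K ^ 2 * n := by
        have : 2 * K + 2 ≤ K ^ 2 := by nlinarith
        nlinarith
      calc _ ≤ K ^ 2 * n := h1
        _ ≤ K ^ 2 * (K * (W.image Prod.fst).card) := Nat.mul_le_mul_left _ hW.rd
        _ = _ := by ring)
  have hex : ∀ (y : ℕ) (l : Fin m), ∃ v : D k, y ∈ Y → v ∈ W ∧ v.1 = ⌊(y : ℝ) / s * t l⌋ + r0 l := by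
    intro y l
    by_cases hy : y ∈ Y
    · obtain ⟨v, hv, e⟩ := Finset.mem_image.1 (hmem l (mem_univ _) y hy)
      exact ⟨v, fun _ => ⟨hv, e⟩⟩
    · exact ⟨0, fun h => absurd h hy⟩
  choose om hom using hex
  have hlt : (Fintype.piFinset fun _ : Fin m => Fintype.piFinset fun _ : Fin k =>
      Finset.Icc (-((J * K * n : ℕ) : ℤ)) (J * K * n : ℕ)).card <
      (Fintype.piFinset fun _ : Fin J => Y).card := by
    have e : (Finset.Icc (-((J * K * n : ℕ) : ℤ)) (J * K * n : ℕ)).card = 2 * (J * K * n) + 1 := by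
      rw [Int.card_Icc]
      have : (((J * K * n : ℕ) : ℤ) + 1 - -((J * K * n : ℕ) : ℤ)) =
          ((2 * (J * K * n) + 1 : ℕ) : ℤ) := by push_cast; ring
      rw [this, Int.toNat_natCast]
    simp only [Fintype.card_piFinset, Finset.prod_const, Finset.card_univ, Fintype.card_fin, e]
    rw [← pow_mul]
    have p1 : 1 ≤ J * K * n := Nat.mul_pos (Nat.mul_pos hJ (by omega)) hn
    have h1 : (2 * (J * K * n) + 1) ^ (k * m) ≤ (3 * J * K * n) ^ (k * m) :=
      Nat.pow_le_pow_left (by nlinarith) _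
    rw [Finset.card_range, Finset.card_univ, Fintype.card_fin] at hcard
    have h2 : s ^ J ≤ Y.card ^ J * K ^ (3 * m * J) := by
      refine (Nat.pow_le_pow_left hcard J).trans (le_of_eq ?_)
      rw [mul_pow, ← pow_mul, ← pow_mul, mul_comm, ← mul_assoc]
    exact h1.trans_lt (Nat.lt_of_mul_lt_mul_right (hs.trans_le h2))
  obtain ⟨y, hy, y', hy', hne, e⟩ := Finset.exists_ne_map_eq_of_card_lt_of_maps_to hlt
    (f := fun y l j => ⌊(∑ i, c i • gR k (om (y i) l)) j⌋) (fun y hy => by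
      have hy := Fintype.mem_piFinset.1 hy
      simp only [Finset.mem_coe, Fintype.mem_piFinset, Finset.mem_Icc]
      intro l j
      have h1 := nrm c hc (fun i => gR k (om (y i) l)) fun i => hW.pb _ (hom _ l (hy i)).1
      obtain ⟨h2, h3⟩ := abs_le.1 ((norm_le_pi_norm _ j).trans h1)
      refine ⟨Int.le_floor.2 ?_, Int.floor_le_iff.2 ?_⟩
      · push_cast; linarith
      · push_cast; linarith)
  have hy := Fintype.mem_piFinset.1 hy
  have hy' := Fintype.mem_piFinset.1 hy'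
  refine ⟨y, y', fun i l => om (y i) l, fun i l => om (y' i) l, hne,
    fun i => ⟨Finset.mem_range.1 (hY (hy i)), Finset.mem_range.1 (hY (hy' i))⟩,
    fun i l => ⟨(hom _ l (hy i)).1, (hom _ l (hy' i)).1⟩, fun i l => ?_, fun l => ?_⟩
  · rw [(hom _ l (hy i)).2, (hom _ l (hy' i)).2]; ring
  · simp only [smul_sub, Finset.sum_sub_distrib]
    refine (pi_norm_le_iff_of_nonneg zero_le_one).2 fun j => ?_
    exact (Int.abs_sub_lt_one_of_floor_eq_floor (congrFun (congrFun e l) j)).le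

end Pool.Agent.MP_5168f5_an.H95F
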